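import Mathlib
import Pool.Agent.Y144.MT.Cond

/-!
# Gradings by classes of eigenvalues of commuting elements of the group

`X` is the rational Tate module of an abelian variety over an algebraically closed field `K`
containing `ℚ_ℓ`, with the action `R` of the Galois group `Γ` and the cyclotomic character `χ`.
-/

set_option autoImplicit false
set_option linter.unusedSectionVars false

namespace Pool.Agent.T9h64.MT

open Module Pool.Agent.Y126.Notions
open Pool.Agent.H204R3.SP Pool.Agent.H204R3.GP Pool.Agent.W522.U

noncomputable section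

section defs

variable {K X Γ : Type} [Field K] [AddCommGroup X] [Module K X] [Group Γ]

/-- The element `g` commutes with all operators that commute with a subgroup of finite index. -/
def CommutesWithEnd (R : Representation K Γ X) (g : Γ) : Prop :=
  ∀ P : Module.End K X, (∃ Δ : Subgroup Γ, Δ.FiniteIndex ∧ ∀ s ∈ Δ, P * R s = R s * P) →
    P * R g = R g * P

/-- The group of the classes of the families `(a 1, ..., a r)` of elements of `Kˣ` modulo `H`. -/
def Cl {K : Type} [Field K] {r : ℕ} (H : Subgroup (Fin r → Kˣ)) : Type := (Fin r → Kˣ) ⧸ H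

instance {K : Type} [Field K] {r : ℕ} (H : Subgroup (Fin r → Kˣ)) : CommGroup (Cl H) :=
  inferInstanceAs (CommGroup ((Fin r → Kˣ) ⧸ H))

/-- The class of a family. -/
def cls {K : Type} [Field K] {r : ℕ} (H : Subgroup (Fin r → Kˣ)) : (Fin r → Kˣ) →* Cl H :=
  QuotientGroup.mk' H

/-- The basis `b` consists of common eigenvectors of the elements `γ k`, which commute with the
endomorphisms, and `deg i` is the class of the family of the eigenvalues of the `γ k` on `b i`. -/
def IsClassGrading (R : Representation K Γ X) {r n : ℕ} (γ : Fin r → Γ)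
    (H : Subgroup (Fin r → Kˣ)) (b : Basis (Fin n) K X) (deg : Fin n → Cl H) : Prop :=
  (∀ k, CommutesWithEnd R (γ k)) ∧ ∃ a : Fin n → Fin r → Kˣ,
    (∀ i k, R (γ k) (b i) = (a i k : K) • b i) ∧ ∀ i, deg i = cls H (a i)

/-- The span of the members of the basis of degree `d`. -/
def part {n : ℕ} {A : Type} (b : Basis (Fin n) K X) (deg : Fin n → A) (d : A) : Submodule K X :=
  Submodule.span K {x | ∃ i, deg i = d ∧ x = b i}

end defs

section comp

variable {K X : Type} [Field K] [AddCommGroup X] [Module K X] {n : ℕ} {A : Type} [CommGroup A]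
  (b : Basis (Fin n) K X) (deg : Fin n → A)

open Classical in
/-- The projection to the part of degree `d`. -/
def pr (d : A) : Module.End K X := b.constr K fun i => if deg i = d then b i else 0

open Classical in
/-- Multiplication of the entries of the matrix by a function. -/
def tw (y : Module.End K X) (f : Fin n × Fin n → K) : Module.End K X :=
  Matrix.toLin b b (Matrix.of fun i j => f (i, j) * LinearMap.toMatrix b b y i j)

open Classical in
/-- The indicator function of the pairs of degree `κ`. -/
def ind (K : Type) [Field K] (κ : A) (p : Fin n × Fin n) : K :=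
  if deg p.1 = κ * deg p.2 then 1 else 0

theorem ind_of {κ : A} {p : Fin n × Fin n} (h : deg p.1 = κ * deg p.2) : ind deg K κ p = 1 :=
  if_pos h

theorem ind_of_not {κ : A} {p : Fin n × Fin n} (h : ¬deg p.1 = κ * deg p.2) :
    ind deg K κ p = 0 :=
  if_neg h

/-- The component of degree `κ` of an operator. -/
def comp (κ : A) (y : Module.End K X) : Module.End K X :=
  tw b y (ind deg K κ)

theorem pr_basis (d : A) (i : Fin n) [Decidable (deg i = d)] :
    pr b deg d (b i) = if deg i = d then b i else 0 := by
  rw [pr, Basis.constr_basis]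
  congr

theorem pr_mem (d : A) (v : X) : pr b deg d v ∈ part b deg d := by
  classical
  rw [← b.sum_repr v, map_sum]
  refine Submodule.sum_mem _ fun i _ => ?_
  rw [map_smul, pr_basis]
  refine Submodule.smul_mem _ _ ?_
  by_cases h : deg i = d
  · rw [if_pos h]
    exact Submodule.subset_span ⟨i, h, rfl⟩
  · rw [if_neg h]
    exact Submodule.zero_mem _

theorem pr_of_mem {d : A} {v : X} (hv : v ∈ part b deg d) : pr b deg d v = v := by
  classical
  induction hv using Submodule.span_induction with
  | mem x hx =>
    obtain ⟨i, hi, rfl⟩ := hx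
    rw [pr_basis, if_pos hi]
  | zero => exact map_zero _
  | add x y _ _ hx hy => rw [map_add, hx, hy]
  | smul c x _ hx => rw [map_smul, hx]

theorem pr_of_mem_ne {d e : A} (hde : d ≠ e) {v : X} (hv : v ∈ part b deg d) :
    pr b deg e v = 0 := by
  classical
  induction hv using Submodule.span_induction with
  | mem x hx =>
    obtain ⟨i, hi, rfl⟩ := hx
    rw [pr_basis, if_neg]
    rw [hi]
    exact hde
  | zero => exact map_zero _
  | add x y _ _ hx hy => rw [map_add, hx, hy, add_zero]
  | smul c x _ hx => rw [map_smul, hx, smul_zero]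

open Classical in
theorem sum_pr (v : X) : ∑ d ∈ Finset.univ.image deg, pr b deg d v = v := by
  have h : (∑ d ∈ Finset.univ.image deg, pr b deg d) = (1 : Module.End K X) := by
    refine b.ext fun i => ?_
    rw [LinearMap.sum_apply, Finset.sum_eq_single (deg i)]
    · rw [pr_basis, if_pos rfl]
      rfl
    · intro d _ hd
      rw [pr_basis, if_neg (fun h => hd h.symm)]
    · intro h
      exact absurd (Finset.mem_image_of_mem _ (Finset.mem_univ i)) h
  rw [← LinearMap.sum_apply, h]
  rfl

theorem tw_basis (y : Module.End K X) (f : Fin n × Fin n → K) (j : Fin n) :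
    tw b y f (b j) = ∑ i, (f (i, j) * b.repr (y (b j)) i) • b i := by
  classical
  rw [tw, Matrix.toLin_self]
  refine Finset.sum_congr rfl fun i _ => ?_
  rw [Matrix.of_apply, LinearMap.toMatrix_apply]

theorem comp_mem_part (κ : A) (y : Module.End K X) {d : A} {v : X} (hv : v ∈ part b deg d) :
    comp b deg κ y v ∈ part b deg (κ * d) := by
  classical
  induction hv using Submodule.span_induction with
  | mem x hx =>
    obtain ⟨j, hj, rfl⟩ := hx
    rw [comp, tw_basis]
    refine Submodule.sum_mem _ fun i _ => ?_
    by_cases h : deg i = κ * deg j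
    · refine Submodule.smul_mem _ _ (Submodule.subset_span ⟨i, ?_, rfl⟩)
      rw [h, hj]
    · rw [ind_of_not deg (p := (i, j)) h, zero_mul, zero_smul]
      exact Submodule.zero_mem _
  | zero =>
    rw [map_zero]
    exact Submodule.zero_mem _
  | add x y _ _ hx hy =>
    rw [map_add]
    exact Submodule.add_mem _ hx hy
  | smul c x _ hx =>
    rw [map_smul]
    exact Submodule.smul_mem _ _ hx

/-- On the part of degree `d` the component is the projection of the operator. -/
theorem comp_apply_part (κ : A) (y : Module.End K X) {d : A} {v : X} (hv : v ∈ part b deg d) :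
    comp b deg κ y v = pr b deg (κ * d) (y v) := by
  classical
  induction hv using Submodule.span_induction with
  | mem x hx =>
    obtain ⟨j, hj, rfl⟩ := hx
    rw [comp, tw_basis]
    conv_rhs => rw [← b.sum_repr (y (b j)), map_sum]
    refine Finset.sum_congr rfl fun i _ => ?_
    rw [map_smul, pr_basis]
    by_cases h : deg i = κ * deg j
    · rw [ind_of deg (p := (i, j)) h, one_mul, if_pos (by rw [h, hj])]
    · rw [ind_of_not deg (p := (i, j)) h, zero_mul, zero_smul, if_neg (by rw [← hj]; exact h),
        smul_zero]
  | zero => rw [map_zero, map_zero, map_zero]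
  | add x y _ _ hx hy => rw [map_add, hx, hy, map_add, map_add]
  | smul c x _ hx => rw [map_smul, hx, map_smul, map_smul]

open Classical in
theorem sum_comp (y : Module.End K X) :
    ∑ κ ∈ (Finset.univ : Finset (Fin n × Fin n)).image (fun p => deg p.1 * (deg p.2)⁻¹),
      comp b deg κ y = y := by
  refine b.ext fun j => ?_
  rw [LinearMap.sum_apply]
  have h1 : ∀ κ, comp b deg κ y (b j) =
      ∑ i, (ind deg K κ (i, j) * b.repr (y (b j)) i) • b i := by
    intro κ
    rw [comp, tw_basis]
  rw [Finset.sum_congr rfl (fun κ _ => h1 κ), Finset.sum_comm]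
  conv_rhs => rw [← b.sum_repr (y (b j))]
  refine Finset.sum_congr rfl fun i _ => ?_
  rw [← Finset.sum_smul, ← Finset.sum_mul, Finset.sum_eq_single (deg i * (deg j)⁻¹)]
  · rw [ind_of deg (by rw [inv_mul_cancel_right]), one_mul]
  · intro κ _ hκ
    refine ind_of_not deg fun h => hκ ?_
    rw [h, mul_inv_cancel_right]
  · intro h
    exact absurd (Finset.mem_image_of_mem (fun p : Fin n × Fin n => deg p.1 * (deg p.2)⁻¹)
      (Finset.mem_univ (i, j))) h

end comp

section separate

variable {K : Type} [Field K] {ι : Type} [Fintype ι]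

/-- A function on a finite set that has equal values at two points whenever all members of a
subalgebra have belongs to the subalgebra. -/
theorem mem_of_separates (S : Subalgebra K (ι → K)) (φ : ι → K)
    (h : ∀ p q, (∀ f ∈ S, f p = f q) → φ p = φ q) : φ ∈ S := by
  classical
  -- the function that is one at the points equivalent to `p` and zero at the others
  have hδ : ∀ p, ∃ δ ∈ S, (∀ q, (∀ f ∈ S, f p = f q) → δ q = 1) ∧
      ∀ q, ¬(∀ f ∈ S, f p = f q) → δ q = 0 := by
    intro p
    have h1 : ∀ q, ∃ f ∈ S, f p = 1 ∧ ((¬ ∀ f ∈ S, f p = f q) → f q = 0) := by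
      intro q
      by_cases hq : ∀ f ∈ S, f p = f q
      · exact ⟨1, S.one_mem, rfl, fun h => absurd hq h⟩
      · push Not at hq
        obtain ⟨f, hf, hne⟩ := hq
        refine ⟨(f p - f q)⁻¹ • (f - algebraMap K (ι → K) (f q)),
          S.smul_mem (S.sub_mem hf (S.algebraMap_mem _)) _, ?_, fun _ => ?_⟩
        · simp only [Pi.smul_apply, Pi.sub_apply, Pi.algebraMap_apply, Algebra.algebraMap_self,
            RingHom.id_apply, smul_eq_mul]
          exact inv_mul_cancel₀ (sub_ne_zero.2 hne)
        · simp
    choose g hg hg1 hg0 using h1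
    refine ⟨∏ q, g q, S.prod_mem fun q _ => hg q, fun q hq => ?_, fun q hq => ?_⟩
    · rw [← hq _ (S.prod_mem fun q _ => hg q), Finset.prod_apply]
      exact Finset.prod_eq_one fun q _ => hg1 q
    · rw [Finset.prod_apply]
      exact Finset.prod_eq_zero (Finset.mem_univ q) (hg0 q hq)
  choose δ hδS hδ1 hδ0 using hδ
  -- the number of points equivalent to `p` may vanish in `K`; choose representatives
  let s : Setoid ι :=
    { r := fun p q => ∀ f ∈ S, f p = f q
      iseqv := ⟨fun p f _ => rfl, fun h f hf => (h f hf).symm,
        fun h h' f hf => (h f hf).trans (h' f hf)⟩ }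
  have hfin : Fintype (Quotient s) := Fintype.ofFinite _
  have h2 : φ = ∑ c : Quotient s, φ c.out • δ c.out := by
    funext q
    rw [Finset.sum_apply, Finset.sum_eq_single (Quotient.mk s q)]
    · have h3 : ∀ f ∈ S, f (Quotient.mk s q).out = f q :=
        fun f hf => (Quotient.mk_out (s := s) q) f hf
      rw [Pi.smul_apply, hδ1 _ _ h3, smul_eq_mul, mul_one]
      exact (h _ _ h3).symm
    · intro c _ hc
      rw [Pi.smul_apply, hδ0, smul_zero]
      intro h3
      apply hc
      rw [← Quotient.out_eq c]
      exact Quotient.sound h3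
    · intro h3
      exact absurd (Finset.mem_univ _) h3
  rw [h2]
  exact S.sum_mem fun c _ => S.smul_mem (hδS _) _

end separate

end

end Pool.Agent.T9h64.MT
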