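import Mathlib
import Pool.Agent.T9h64.MT.Grade

/-!
# The Lie algebra and the strongly irreducible subspaces are graded
-/

set_option autoImplicit false
set_option linter.unusedSectionVars false

namespace Pool.Agent.T9h64.MT

open Module Pool.Agent.Y126.Notions
open Pool.Agent.H204R3.SP Pool.Agent.H204R3.GP Pool.Agent.W522.U

noncomputable section

section tw

variable {K X : Type} [Field K] [AddCommGroup X] [Module K X] {n : ℕ} (b : Basis (Fin n) K X)

theorem tw_repr (y : Module.End K X) (f : Fin n × Fin n → K) (i j : Fin n) :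
    b.repr (tw b y f (b j)) i = f (i, j) * b.repr (y (b j)) i := by
  classical
  rw [tw_basis, map_sum, Finset.sum_apply']
  simp only [map_smul, Finsupp.smul_apply, Basis.repr_self, smul_eq_mul]
  rw [Finset.sum_eq_single i]
  · rw [Finsupp.single_eq_same, mul_one]
  · intro k _ hk
    rw [Finsupp.single_eq_of_ne (Ne.symm hk), mul_zero]
  · intro h
    exact absurd (Finset.mem_univ _) h

theorem ext_repr {y z : Module.End K X}
    (h : ∀ i j, b.repr (y (b j)) i = b.repr (z (b j)) i) : y = z := by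
  refine b.ext fun j => b.repr.injective (Finsupp.ext fun i => h i j)

theorem tw_mul (y : Module.End K X) (f g : Fin n × Fin n → K) :
    tw b y (f * g) = tw b (tw b y g) f := by
  refine ext_repr b fun i j => ?_
  rw [tw_repr, tw_repr, tw_repr, Pi.mul_apply, mul_assoc]

theorem tw_add (y : Module.End K X) (f g : Fin n × Fin n → K) :
    tw b y (f + g) = tw b y f + tw b y g := by
  refine ext_repr b fun i j => ?_
  rw [LinearMap.add_apply, map_add, Finsupp.add_apply, tw_repr, tw_repr, tw_repr, Pi.add_apply,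
    add_mul]

theorem tw_const (y : Module.End K X) (c : K) :
    tw b y (algebraMap K (Fin n × Fin n → K) c) = c • y := by
  refine ext_repr b fun i j => ?_
  rw [LinearMap.smul_apply, map_smul, Finsupp.smul_apply, tw_repr, smul_eq_mul]
  rfl

/-- The functions that preserve `L`. -/
def preserving (L : Submodule K (Module.End K X)) : Subalgebra K (Fin n × Fin n → K) where
  carrier := {f | ∀ y ∈ L, tw b y f ∈ L}
  mul_mem' := by
    intro f g hf hg y hy
    rw [tw_mul]
    exact hf _ (hg y hy)
  add_mem' := by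
    intro f g hf hg y hy
    rw [tw_add]
    exact L.add_mem (hf y hy) (hg y hy)
  algebraMap_mem' := by
    intro c y hy
    rw [tw_const]
    exact L.smul_mem _ hy

end tw

section main

variable {K : Type} [Field K] [CharZero K] {X : Type} [AddCommGroup X] [Module K X]
  [FiniteDimensional K X] {Γ : Type} [Group Γ] {R : Representation K Γ X} {χ : Γ →* K}
  {r n : ℕ} {γ : Fin r → Γ} {H : Subgroup (Fin r → Kˣ)} {b : Basis (Fin n) K X}
  {deg : Fin n → Cl H}

theorem inv_eigen {g : Γ} {v : X} {a : Kˣ} (h : R g v = (a : K) • v) :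
    R g⁻¹ v = ((a⁻¹ : Kˣ) : K) • v := by
  have h1 : R g⁻¹ (R g v) = v := Rinv g v
  rw [h, map_smul] at h1
  calc R g⁻¹ v = ((a⁻¹ : Kˣ) : K) • ((a : K) • R g⁻¹ v) := by
        rw [smul_smul, Units.inv_mul, one_smul]
    _ = _ := by rw [h1]

/-- The Lie algebra is stable under the components. -/
theorem comp_mem_lie (hg : IsClassGrading R γ H b deg) (κ : Cl H) {y : Module.End K X}
    (hy : y ∈ lieT R χ) : comp b deg κ y ∈ lieT R χ := by
  classical
  obtain ⟨-, a, ha, hdeg⟩ := hg
  have hco : ∀ k, (fun p : Fin n × Fin n => ((a p.1 k * (a p.2 k)⁻¹ : Kˣ) : K)) ∈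
      preserving b (lieT R χ) := by
    intro k z hz
    have h1 : tw b z (fun p : Fin n × Fin n => ((a p.1 k * (a p.2 k)⁻¹ : Kˣ) : K)) =
        R (γ k) * z * R (γ k)⁻¹ := by
      refine b.ext fun j => ?_
      rw [tw_basis, Module.End.mul_apply, Module.End.mul_apply, inv_eigen (ha j k), map_smul,
        map_smul]
      conv_rhs => rw [← b.sum_repr (z (b j)), map_sum, Finset.smul_sum]
      refine Finset.sum_congr rfl fun i _ => ?_
      rw [map_smul, ha i k, smul_smul, smul_smul]
      congr 1
      push_cast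
      ring
    rw [h1]
    exact lieT_conj R χ _ hz
  suffices key : ind deg K κ ∈ preserving b (lieT R χ) from key y hy
  refine mem_of_separates _ _ fun p q hpq => ?_
  have h1 : a p.1 * (a p.2)⁻¹ = a q.1 * (a q.2)⁻¹ := by
    funext k
    exact Units.ext (hpq _ (hco k))
  have h2 : deg p.1 * (deg p.2)⁻¹ = deg q.1 * (deg q.2)⁻¹ := by
    rw [hdeg, hdeg, hdeg, hdeg, ← map_inv, ← map_inv, ← map_mul, ← map_mul, h1]
  have h3 : (deg p.1 = κ * deg p.2) ↔ (deg q.1 = κ * deg q.2) := by
    rw [← mul_inv_eq_iff_eq_mul, ← mul_inv_eq_iff_eq_mul, h2]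
  by_cases h4 : deg p.1 = κ * deg p.2
  · rw [ind_of deg h4, ind_of deg (h3.1 h4)]
  · rw [ind_of_not deg h4, ind_of_not deg (fun h => h4 (h3.2 h))]

/-- Operators that commute with the elements `γ k` commute with the projections. -/
theorem pr_comm (hg : IsClassGrading R γ H b deg) (d : Cl H) {Q : Module.End K X}
    (hQ : ∀ k, Q * R (γ k) = R (γ k) * Q) (v : X) :
    pr b deg d (Q v) = Q (pr b deg d v) := by
  classical
  obtain ⟨-, a, ha, hdeg⟩ := hg
  have h0 : ∀ i j, b.repr (Q (b i)) j ≠ 0 → deg j = deg i := by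
    intro i j hij
    have h1 : a j = a i := by
      funext k
      have h2 : R (γ k) (Q (b i)) = (a i k : K) • Q (b i) := by
        rw [← Module.End.mul_apply, ← hQ, Module.End.mul_apply, ha, map_smul]
      have h3 := congrArg (fun w => b.repr w j) h2
      have h4 : b.repr (R (γ k) (Q (b i))) j = (a j k : K) * b.repr (Q (b i)) j := by
        conv_lhs => rw [← b.sum_repr (Q (b i)), map_sum]
        simp only [map_smul, ha, smul_smul, map_sum, Finset.sum_apply', Finsupp.smul_apply,
          Basis.repr_self, smul_eq_mul]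
        rw [Finset.sum_eq_single j]
        · rw [Finsupp.single_eq_same, mul_one, mul_comm]
        · intro k' _ hk
          rw [Finsupp.single_eq_of_ne (Ne.symm hk), mul_zero]
        · intro h
          exact absurd (Finset.mem_univ _) h
      simp only [map_smul, Finsupp.smul_apply, smul_eq_mul] at h3
      rw [h4] at h3
      exact Units.ext (mul_right_cancel₀ hij h3)
    rw [hdeg, hdeg, h1]
  have h5 : (pr b deg d) * Q = Q * pr b deg d := by
    refine b.ext fun i => ?_
    rw [Module.End.mul_apply, Module.End.mul_apply, pr_basis]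
    have h6 : pr b deg d (Q (b i)) = if deg i = d then Q (b i) else 0 := by
      conv_lhs => rw [← b.sum_repr (Q (b i)), map_sum]
      have h7 : ∀ j, pr b deg d (b.repr (Q (b i)) j • b j) =
          if deg i = d then b.repr (Q (b i)) j • b j else 0 := by
        intro j
        rw [map_smul, pr_basis]
        by_cases hj : b.repr (Q (b i)) j = 0
        · rw [hj, zero_smul, zero_smul, ite_self]
        · rw [h0 i j hj, smul_ite, smul_zero]
      rw [Finset.sum_congr rfl (fun j _ => h7 j)]
      by_cases h : deg i = d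
      · simp only [if_pos h]
        exact b.sum_repr _
      · simp only [if_neg h]
        exact Finset.sum_const_zero
    rw [h6]
    by_cases h : deg i = d
    · rw [if_pos h, if_pos h]
    · rw [if_neg h, if_neg h, map_zero]
  exact congrArg (fun f : Module.End K X => f v) h5

/-- Potentially stable subspaces are graded. -/
theorem pr_stable (hg : IsClassGrading R γ H b deg) (hss : HasProj R) {U : Submodule K X}
    (hU : Pot R U) (d : Cl H) : ∀ u ∈ U, pr b deg d u ∈ U := by
  obtain ⟨Δ, hΔ, hst⟩ := hU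
  obtain ⟨P, hP1, hP2, hP3⟩ := hss Δ hΔ U hst
  intro u hu
  have hc : ∀ k, P * R (γ k) = R (γ k) * P := fun k => hg.1 k P ⟨Δ, hΔ, fun s hs =>
    LinearMap.ext fun v => hP3 s hs v⟩
  have h1 := pr_comm hg d hc u
  rw [hP2 u hu] at h1
  rw [h1]
  exact hP1 _

/-- Pairings of strongly irreducible subspaces extend to graded pairings. -/
theorem form_ext (hg : IsClassGrading R γ H b deg) (ω : X →ₗ[K] X →ₗ[K] K)
    (hnd : ∀ u, (∀ v, ω u v = 0) → u = 0)
    (hωR : ∀ g u v, ω (R g u) (R g v) = χ g * ω u v) (hss : HasProj R) {U : Submodule K X}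
    (hU : Pot R U) {Δ : Subgroup Γ} (hΔ : Δ.FiniteIndex) (B : X →ₗ[K] X →ₗ[K] K)
    (hB : ∀ g ∈ Δ, ∀ u ∈ U, ∀ v ∈ U, B (R g u) (R g v) = χ g * B u v)
    {e : Fin r → Kˣ} (he : ∀ k, (e k : K) = χ (γ k)) {d d' : Cl H}
    (hdd : d * d' ≠ cls H e) {u v : X} (hu : u ∈ U) (hv : v ∈ U)
    (hud : u ∈ part b deg d) (hvd : v ∈ part b deg d') : B u v = 0 := by
  classical
  obtain ⟨Δ', hΔ', hst⟩ := hU
  obtain ⟨P, hP1, hP2, hP3⟩ := hss (Δ ⊓ Δ') inferInstance U (fun g hg => hst g hg.2)
  obtain ⟨B', hB'⟩ : ∃ B' : X →ₗ[K] X →ₗ[K] K, B' = B.compl₁₂ P P := ⟨_, rfl⟩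
  have hB'a : ∀ x y, B' x y = B (P x) (P y) := fun x y => by rw [hB', LinearMap.compl₁₂_apply]
  have hB's : ∀ g ∈ Δ ⊓ Δ', ∀ x y, B' (R g x) (R g y) = χ g * B' x y := by
    intro g hg x y
    rw [hB'a, hB'a, hP3 g hg, hP3 g hg]
    exact hB g hg.1 _ (hP1 x) _ (hP1 y)
  -- the operator that represents the form
  have hinj : Function.Injective ω := by
    intro x y hxy
    rw [← sub_eq_zero]
    refine hnd _ fun v => ?_
    rw [map_sub, hxy, sub_self, LinearMap.zero_apply]
  have hbij : Function.Bijective ω := ⟨hinj, (LinearMap.injective_iff_surjective_of_finrank_eq_finrank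
    (Subspace.dual_finrank_eq (K := K) (V := X)).symm).1 hinj⟩
  let E : X ≃ₗ[K] (X →ₗ[K] K) := LinearEquiv.ofBijective ω hbij
  let Q : Module.End K X := E.symm.toLinearMap.comp B'
  have hQ : ∀ x y, ω (Q x) y = B' x y := by
    intro x y
    have h1 : E (Q x) = B' x := E.apply_symm_apply _
    exact congrArg (fun f : X →ₗ[K] K => f y) h1
  have hQΔ : ∀ s ∈ Δ ⊓ Δ', Q * R s = R s * Q := by
    intro s hs
    refine LinearMap.ext fun x => ?_
    rw [Module.End.mul_apply, Module.End.mul_apply, ← sub_eq_zero]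
    refine hnd _ fun y => ?_
    have h2 : y = R s (R s⁻¹ y) := (Rinv' s y).symm
    rw [h2, map_sub, LinearMap.sub_apply, hQ, hB's s hs, hωR, hQ, sub_self]
  have hQγ : ∀ k, Q * R (γ k) = R (γ k) * Q := fun k => hg.1 k Q ⟨_, inferInstance, hQΔ⟩
  have hBγ : ∀ k x y, B' (R (γ k) x) (R (γ k) y) = χ (γ k) * B' x y := by
    intro k x y
    rw [← hQ, ← Module.End.mul_apply, hQγ, Module.End.mul_apply, hωR, hQ]
  obtain ⟨-, a, ha, hdeg⟩ := hg
  have hbb : ∀ i j, deg i * deg j ≠ cls H e → B' (b i) (b j) = 0 := by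
    intro i j hij
    by_contra h0
    apply hij
    have h1 : a i * a j = e := by
      funext k
      apply Units.ext
      have h2 := hBγ k (b i) (b j)
      rw [ha, ha, map_smul, map_smul, LinearMap.smul_apply, smul_eq_mul, smul_eq_mul, ← mul_assoc,
        ← he] at h2
      have h3 := mul_right_cancel₀ h0 h2
      rw [Pi.mul_apply, Units.val_mul, mul_comm]
      exact h3
    rw [hdeg, hdeg, ← h1, map_mul]
  have hpp : B' u v = 0 := by
    clear hu hv
    induction hud using Submodule.span_induction with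
    | mem x hx =>
      obtain ⟨i, hi, rfl⟩ := hx
      induction hvd using Submodule.span_induction with
      | mem x hx =>
        obtain ⟨j, hj, rfl⟩ := hx
        exact hbb i j (by rw [hi, hj]; exact hdd)
      | zero => exact map_zero _
      | add x y _ _ hx hy => rw [map_add, hx, hy, add_zero]
      | smul c x _ hx => rw [map_smul, hx, smul_zero]
    | zero => rw [map_zero, LinearMap.zero_apply]
    | add x y _ _ hx hy => rw [map_add, LinearMap.add_apply, hx, hy, add_zero]
    | smul c x _ hx => rw [map_smul, LinearMap.smul_apply, hx, smul_zero]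
  rw [hB'a, hP2 u hu, hP2 v hv] at hpp
  exact hpp

/-- If the weak Hodge elements generate, the Lie algebra acts irreducibly on the strongly
irreducible subspaces. -/
theorem irr_lie (ω : X →ₗ[K] X →ₗ[K] K) (hnd : ∀ u, (∀ v, ω u v = 0) → u = 0)
    (hωR : ∀ g u v, ω (R g u) (R g v) = χ g * ω u v) (hss : HasProj R)
    (hP : Pool.Agent.W528.Odd.WeakHodgeGenerate R χ) {U : Submodule K X} (hU : SI R U)
    {W : Submodule K X} (hWU : W ≤ U) (hW : ∀ y ∈ lieT R χ, ∀ w ∈ W, y w ∈ W) :
    W = ⊥ ∨ W = U := by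
  obtain ⟨Δ, hΔ, hUΔ⟩ := id hU.2.1
  rcases Pool.Agent.W528.Odd.irr_weak ω hnd hωR hss hP hU Δ hΔ hUΔ (W.comap U.subtype) (by
    rintro Y ⟨x₀, hx₀, -, hY⟩ u hu
    rw [Submodule.mem_comap, Submodule.coe_subtype, hY]
    exact hW x₀ hx₀ _ hu) with h | h
  · left
    rw [eq_bot_iff]
    intro w hw
    have h1 : (⟨w, hWU hw⟩ : U) ∈ W.comap U.subtype := hw
    rw [h, Submodule.mem_bot] at h1
    rw [Submodule.mem_bot]
    exact congrArg Subtype.val h1
  · right
    refine le_antisymm hWU fun u hu => ?_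
    have h1 : (⟨u, hu⟩ : U) ∈ W.comap U.subtype := by
      rw [h]
      trivial
    exact h1

end main

end

end Pool.Agent.T9h64.MT
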