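import Mathlib
import Pool.Agent.T9h64.MT.Stab
import Pool.Agent.Y126.Toric.Alt

/-!
# Global elements of square zero from the weak Hodge elements
-/

set_option autoImplicit false
set_option linter.unusedSectionVars false

namespace Pool.Agent.T9h64.MT

open Module Pool.Agent.Y126.Notions
open Pool.Agent.H204R3.SP Pool.Agent.H204R3.GP Pool.Agent.W522.U
open Pool.Agent.W528.Odd Pool.Agent.Y126.OT Pool.Agent.TH118.CR Pool.Agent.Y126.Toric

noncomputable section

variable {K : Type} [Field K] [CharZero K] {X : Type} [AddCommGroup X] [Module K X]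
  [FiniteDimensional K X] {Γ : Type} [Group Γ] {R : Representation K Γ X} {χ : Γ →* K}

/-- The components of an element of the Lie algebra with respect to a weak Hodge element. -/
theorem weak_comp {x y : Module.End K X} (hx : x ∈ lieT R χ) (hxx : x * x = (1 / 4 : K) • 1)
    (hy : y ∈ lieT R χ) : ((1 / 2 : K) • 1 + x) * y * ((1 / 2 : K) • 1 - x) ∈ lieT R χ := by
  have h1 : x * y - y * x ∈ lieT R χ := lieT_bracket R χ hx hy
  have h2 : x * (x * y - y * x) - (x * y - y * x) * x ∈ lieT R χ := lieT_bracket R χ hx h1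
  have h3 : x * (x * y - y * x) - (x * y - y * x) * x = (1 / 2 : K) • y - (2 : K) • (x * y * x) := by
    have h4 : x * (x * y - y * x) - (x * y - y * x) * x =
        (x * x) * y - (x * y * x + x * y * x) + y * (x * x) := by noncomm_ring
    rw [h4, hxx, smul_mul_assoc, one_mul, mul_smul_comm, mul_one, ← two_smul K (x * y * x)]
    have h5 : (1 / 4 : K) • y - (2 : K) • (x * y * x) + (1 / 4 : K) • y =
        ((1 / 4 : K) + 1 / 4) • y - (2 : K) • (x * y * x) := by
      rw [add_smul]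
      abel
    rw [h5]
    norm_num
  have h6 : ((1 / 2 : K) • 1 + x) * y * ((1 / 2 : K) • 1 - x) =
      (1 / 2 : K) • (x * (x * y - y * x) - (x * y - y * x) * x) + (1 / 2 : K) • (x * y - y * x) := by
    rw [h3]
    simp only [mul_sub, add_mul, smul_mul_assoc, mul_smul_comm, one_mul, mul_one, smul_sub,
      smul_smul, smul_add]
    norm_num
    abel
  rw [h6]
  exact (lieT R χ).add_mem ((lieT R χ).smul_mem _ h2) ((lieT R χ).smul_mem _ h1)

theorem weak_comp_sq {x y : Module.End K X} (hxx : x * x = (1 / 4 : K) • 1) :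
    (((1 / 2 : K) • 1 + x) * y * ((1 / 2 : K) • 1 - x)) *
      (((1 / 2 : K) • 1 + x) * y * ((1 / 2 : K) • 1 - x)) = 0 := by
  have h1 : ((1 / 2 : K) • (1 : Module.End K X) - x) * ((1 / 2 : K) • 1 + x) = 0 := by
    simp only [sub_mul, mul_add, smul_mul_assoc, mul_smul_comm, one_mul, mul_one, hxx]
    module
  calc (((1 / 2 : K) • 1 + x) * y * ((1 / 2 : K) • 1 - x)) *
      (((1 / 2 : K) • 1 + x) * y * ((1 / 2 : K) • 1 - x)) =
      ((1 / 2 : K) • 1 + x) * y * ((((1 / 2 : K) • 1 - x) * ((1 / 2 : K) • 1 + x)) * (y *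
        ((1 / 2 : K) • 1 - x))) := by simp only [mul_assoc]
    _ = 0 := by rw [h1, zero_mul, mul_zero]

/-- If the weak Hodge elements generate there is an element of square zero which is not zero on the
strongly irreducible subspace `U`. -/
theorem exists_global (ω : X →ₗ[K] X →ₗ[K] K) (hnd : ∀ u, (∀ v, ω u v = 0) → u = 0)
    (hωR : ∀ g u v, ω (R g u) (R g v) = χ g * ω u v) (hss : HasProj R)
    (hP : Pool.Agent.W528.Odd.WeakHodgeGenerate R χ) {U : Submodule K X} (hU : SI R U)
    (h2 : 2 ≤ finrank K U) : ∃ N ∈ lieT R χ, N * N = 0 ∧ U.map N ≠ ⊥ := by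
  by_contra hcon
  push Not at hcon
  have h0 : ∀ N ∈ lieT R χ, N * N = 0 → ∀ u ∈ U, N u = 0 := by
    intro N hN hNN u hu
    have h1 : N u ∈ U.map N := Submodule.mem_map_of_mem hu
    rwa [hcon N hN hNN, Submodule.mem_bot] at h1
  -- the weak Hodge elements commute with the Lie algebra on `U`
  have hcomm : ∀ x ∈ lieT R χ, x * x = (1 / 4 : K) • 1 → ∀ y ∈ lieT R χ, ∀ u ∈ U,
      x (y u) = y (x u) := by
    intro x hx hxx y hy u hu
    have e1 := h0 _ (weak_comp hx hxx hy) (weak_comp_sq hxx) u hu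
    have hx' : -x ∈ lieT R χ := (lieT R χ).neg_mem hx
    have hxx' : -x * -x = (1 / 4 : K) • 1 := by rw [neg_mul_neg, hxx]
    have e2 := h0 _ (weak_comp hx' hxx' hy) (weak_comp_sq hxx') u hu
    simp only [Module.End.mul_apply, LinearMap.add_apply, LinearMap.sub_apply,
      LinearMap.smul_apply, Module.End.one_apply, LinearMap.neg_apply, map_sub, map_add, map_smul,
      map_neg, sub_neg_eq_add, smul_sub, smul_add] at e1 e2
    have e3 : x (y u) - y (x u) = 0 := by
      have e4 := congrArg₂ (fun a b : X => a - b) e1 e2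
      simp only [sub_zero] at e4
      rw [← e4]
      module
    exact sub_eq_zero.1 e3
  -- they are scalars on `U`
  have hsc : ∀ x ∈ lieT R χ, x * x = (1 / 4 : K) • 1 → ∃ c : K, ∀ u ∈ U, x u = c • u := by
    intro x hx hxx
    have hst : ∀ u ∈ U, x u ∈ U := lieT_stable ω hnd hωR hss hU.2.1 hx
    obtain ⟨W, hW⟩ : ∃ W : Submodule K X, W = U ⊓ LinearMap.ker (x - (1 / 2 : K) • 1) := ⟨_, rfl⟩
    have hWm : ∀ u, u ∈ W ↔ u ∈ U ∧ x u = (1 / 2 : K) • u := by
      intro u
      rw [hW, Submodule.mem_inf, LinearMap.mem_ker, LinearMap.sub_apply, LinearMap.smul_apply,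
        Module.End.one_apply, sub_eq_zero]
    rcases irr_lie ω hnd hωR hss hP hU (W := W) (by rw [hW]; exact inf_le_left) (by
      intro y hy w hw
      rw [hWm] at hw ⊢
      refine ⟨lieT_stable ω hnd hωR hss hU.2.1 hy w hw.1, ?_⟩
      rw [hcomm x hx hxx y hy w hw.1, hw.2, map_smul]) with h | h
    · refine ⟨-(1 / 2), fun u hu => ?_⟩
      have h1 : x u + (1 / 2 : K) • u ∈ W := by
        rw [hWm]
        refine ⟨U.add_mem (hst u hu) (U.smul_mem _ hu), ?_⟩
        have h3 : x (x u) = (1 / 4 : K) • u := by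
          have h4 := congrArg (fun f : Module.End K X => f u) hxx
          simpa using h4
        rw [map_add, map_smul, h3, smul_add, smul_smul]
        norm_num
        abel
      rw [h, Submodule.mem_bot] at h1
      rw [neg_smul]
      exact eq_neg_of_add_eq_zero_left h1
    · refine ⟨1 / 2, fun u hu => ?_⟩
      rw [← h, hWm] at hu
      exact hu.2
  obtain ⟨Δ, hΔ, hUΔ⟩ := id hU.2.1
  obtain ⟨u₀, hu₀, hu₀0⟩ := Submodule.exists_mem_ne_zero_of_ne_bot hU.1
  rcases Pool.Agent.W528.Odd.irr_weak ω hnd hωR hss hP hU Δ hΔ hUΔ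
    (Submodule.span K {(⟨u₀, hu₀⟩ : U)}) (by
      rintro Y ⟨x₀, hx₀, hxx, hY⟩ u hu
      obtain ⟨c, hc⟩ := hsc x₀ hx₀ hxx
      have h3 : Y u = c • u := Subtype.ext (by rw [hY, hc u u.2]; rfl)
      rw [h3]
      exact Submodule.smul_mem _ _ hu) with h | h
  · rw [Submodule.span_singleton_eq_bot] at h
    exact hu₀0 (congrArg Subtype.val h)
  · have h4 : finrank K (Submodule.span K {(⟨u₀, hu₀⟩ : U)}) = finrank K U := by
      rw [h, finrank_top]
    have h5 := finrank_span_le_card (R := K) ({(⟨u₀, hu₀⟩ : U)} : Set U)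
    rw [h4, Set.toFinset_singleton, Finset.card_singleton] at h5
    omega

variable [IsAlgClosed K]

/-- Elements that have square zero and rank one on `U`. -/
theorem one_of_elt (ω : X →ₗ[K] X →ₗ[K] K) (hnd : ∀ u, (∀ v, ω u v = 0) → u = 0)
    (hωR : ∀ g u v, ω (R g u) (R g v) = χ g * ω u v) (hss : HasProj R)
    (hP : Pool.Agent.W528.Odd.WeakHodgeGenerate R χ) {U : Submodule K X} (hU : SI R U)
    (h2 : 2 ≤ finrank K U) {x : Module.End K X} (hx : x ∈ lieT R χ)
    (hxx : ∀ u ∈ U, x (x u) = 0)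
    (hr : finrank K (U.map x) = 1 ∨ (IsSymplectic R χ U ∧ finrank K (U.map x) = 2)) :
    ∃ e ∈ lieT R χ, e * e = 0 ∧ finrank K (U.map e) = 1 := by
  obtain ⟨N, hN, hNN, hN0⟩ := exists_global ω hnd hωR hss hP hU h2
  have hst : ∀ u ∈ U, x u ∈ U := lieT_stable ω hnd hωR hss hU.2.1 hx
  have hn : x.restrict hst ∈ resL R χ U := ⟨x, hx, fun u => rfl⟩
  have hn2 : x.restrict hst * x.restrict hst = 0 :=
    LinearMap.ext fun u => Subtype.ext (hxx u u.2)
  have hrk : rk (x.restrict hst) = finrank K (U.map x) := rk_res (fun u => rfl)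
  rcases hr with h1 | ⟨hsym, h1⟩
  · exact one_of_rank_one ω hnd hωR hss hU hN hNN hN0 hn hn2 (by rw [hrk, h1])
  · exact one_of_alt_gen ω hnd hωR hss hU hsym hN hNN hN0 hn hn2 (d := 2) (by rw [hrk, h1])
      two_ne_zero (Or.inl rfl)

end

end Pool.Agent.T9h64.MT
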