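import Mathlib
import Pool.Agent.T9h64.MT.Glob

/-!
# Square-zero elements of rank one from sum-free families of eigenvalues
-/

set_option autoImplicit false
set_option linter.unusedSectionVars false

namespace Pool.Agent.T9h64.MT

open Module Pool.Agent.Y126.Notions
open Pool.Agent.H204R3.SP Pool.Agent.H204R3.GP Pool.Agent.W522.U
open Pool.Agent.W528.Odd Pool.Agent.Y126.OT Pool.Agent.TH118.CR Pool.Agent.Y126.Toric

noncomputable section

section defs

variable {K X Γ : Type} [Field K] [AddCommGroup X] [Module K X] [Group Γ]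

/-- The class `d` occurs on `U`: some nonzero vector of `U` has degree `d`. -/
def Occurs {n : ℕ} {A : Type} (b : Basis (Fin n) K X) (deg : Fin n → A) (U : Submodule K X)
    (d : A) : Prop :=
  part b deg d ⊓ U ≠ ⊥

/-- The multiplicity of the class `d` on `U`. -/
def mult {n : ℕ} {A : Type} (b : Basis (Fin n) K X) (deg : Fin n → A) (U : Submodule K X)
    (d : A) : ℕ :=
  finrank K (part b deg d ⊓ U : Submodule K X)

/-- The classes different from `d₀` that occur on `U` are sum-free: if `d₀ x`, `d₀ y` and `d₀ x y` are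
such classes then `x y = 1`. -/
def SumFree {n : ℕ} {A : Type} [CommGroup A] (b : Basis (Fin n) K X) (deg : Fin n → A)
    (U : Submodule K X) (d₀ : A) : Prop :=
  ∀ d d', d ≠ d₀ → d' ≠ d₀ → Occurs b deg U d → Occurs b deg U d' →
    Occurs b deg U (d * d' * d₀⁻¹) → d * d' = d₀ * d₀

/-- There are commuting diagonalizable elements `γ k` of the group, which commute with the
endomorphisms, and a subgroup `H` of `(Kˣ) ^ r`, such that for the classes modulo `H` of the families
of eigenvalues of the `γ k`: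

* the class `d₀` occurs on `U`, and the classes different from `d₀` that occur on `U` are sum-free;
* the class `c ≠ d₀` has multiplicity one on `U`, and either the class `d₀ ^ 2 / c` does not occur
  on `U`, or `U` is symplectic and `d₀ ^ 2` is the class of the values of the cyclotomic character. -/
def HasSumFreeClasses (R : Representation K Γ X) (χ : Γ →* K) (U : Submodule K X) : Prop :=
  ∃ (r n : ℕ) (γ : Fin r → Γ) (H : Subgroup (Fin r → Kˣ)) (b : Basis (Fin n) K X)
    (deg : Fin n → Cl H) (e : Fin r → Kˣ) (d₀ c : Cl H),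
    IsClassGrading R γ H b deg ∧ (∀ k, (e k : K) = χ (γ k)) ∧
    Occurs b deg U d₀ ∧ SumFree b deg U d₀ ∧ c ≠ d₀ ∧ mult b deg U c = 1 ∧
    (¬Occurs b deg U (d₀ * d₀ * c⁻¹) ∨ (IsSymplectic R χ U ∧ d₀ * d₀ = cls H e))

end defs

section lemmas

variable {K : Type} [Field K] [CharZero K] {X : Type} [AddCommGroup X] [Module K X]
  [FiniteDimensional K X] {Γ : Type} [Group Γ] {R : Representation K Γ X} {χ : Γ →* K}
  {r n : ℕ} {γ : Fin r → Γ} {H : Subgroup (Fin r → Kˣ)} {b : Basis (Fin n) K X}
  {deg : Fin n → Cl H}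

theorem occurs_of {U : Submodule K X} {d : Cl H} {v : X} (hv : v ∈ part b deg d) (hU : v ∈ U)
    (h0 : v ≠ 0) : Occurs b deg U d := by
  intro h
  have h1 : v ∈ part b deg d ⊓ U := ⟨hv, hU⟩
  rw [h, Submodule.mem_bot] at h1
  exact h0 h1

variable (ω : X →ₗ[K] X →ₗ[K] K) (hnd : ∀ u, (∀ v, ω u v = 0) → u = 0)
  (hωR : ∀ g u v, ω (R g u) (R g v) = χ g * ω u v) (hss : HasProj R)

include hnd hωR hss in
/-- The Lie algebra maps the part of degree `d₀` onto the part of degree `c`. -/
theorem exists_comp (hP : Pool.Agent.W528.Odd.WeakHodgeGenerate R χ) {U : Submodule K X}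
    (hU : SI R U) (hg : IsClassGrading R γ H b deg) {d₀ c : Cl H} (h0 : Occurs b deg U d₀)
    (hsf : ∀ d d', d ≠ d₀ → d' ≠ d₀ → Occurs b deg U d → Occurs b deg U d' →
      Occurs b deg U (d * d' * d₀⁻¹) → d * d' = d₀ * d₀)
    (hc : c ≠ d₀) (hcU : Occurs b deg U c) :
    ∃ y ∈ lieT R χ, ∃ u ∈ part b deg d₀ ⊓ U, comp b deg (c * d₀⁻¹) y u ≠ 0 := by
  classical
  have hst : ∀ {y : Module.End K X}, y ∈ lieT R χ → ∀ u ∈ U, y u ∈ U := fun hy =>
    lieT_stable ω hnd hωR hss hU.2.1 hy
  obtain ⟨W, hWd⟩ : ∃ W : Submodule K X, W = (part b deg d₀ ⊓ U) ⊔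
      Submodule.span K {z | ∃ y ∈ lieT R χ, ∃ u ∈ part b deg d₀ ⊓ U, z = y u} := ⟨_, rfl⟩
  have hW1 : ∀ u ∈ part b deg d₀ ⊓ U, u ∈ W := fun u hu => by
    rw [hWd]
    exact Submodule.mem_sup_left hu
  have hW2 : ∀ y ∈ lieT R χ, ∀ u ∈ part b deg d₀ ⊓ U, y u ∈ W := fun y hy u hu => by
    rw [hWd]
    exact Submodule.mem_sup_right (Submodule.subset_span ⟨y, hy, u, hu, rfl⟩)
  have hWU : W ≤ U := by
    rw [hWd]
    refine sup_le inf_le_right (Submodule.span_le.2 ?_)
    rintro _ ⟨y, hy, u, hu, rfl⟩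
    exact hst hy u hu.2
  -- homogeneous elements
  have hhom : ∀ z ∈ lieT R χ, ∀ y ∈ lieT R χ, ∀ u ∈ part b deg d₀ ⊓ U, ∀ e d : Cl H,
      comp b deg e z (comp b deg d y u) ∈ W := by
    intro z hz y hy u hu e d
    have hz' : comp b deg e z ∈ lieT R χ := comp_mem_lie hg e hz
    have hy' : comp b deg d y ∈ lieT R χ := comp_mem_lie hg d hy
    have hu' : comp b deg d y u ∈ part b deg (d * d₀) ⊓ U :=
      ⟨comp_mem_part b deg d y hu.1, hst hy' u hu.2⟩
    have hzu : comp b deg e z u ∈ part b deg (e * d₀) ⊓ U :=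
      ⟨comp_mem_part b deg e z hu.1, hst hz' u hu.2⟩
    have hbr : comp b deg e z (comp b deg d y u) =
        (comp b deg e z * comp b deg d y - comp b deg d y * comp b deg e z) u +
          comp b deg d y (comp b deg e z u) := by
      rw [LinearMap.sub_apply, Module.End.mul_apply, Module.End.mul_apply, sub_add_cancel]
    have hbr' : (comp b deg e z * comp b deg d y - comp b deg d y * comp b deg e z) u ∈ W :=
      hW2 _ (lieT_bracket R χ hz' hy') u hu
    by_cases hD : d * d₀ = d₀
    · rw [hD] at hu'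
      exact hW2 _ hz' _ hu'
    · by_cases hu0 : comp b deg d y u = 0
      · rw [hu0, map_zero]
        exact W.zero_mem
      have hoD : Occurs b deg U (d * d₀) := occurs_of hu'.1 hu'.2 hu0
      by_cases hE : e * d₀ = d₀
      · rw [hE] at hzu
        rw [hbr]
        exact W.add_mem hbr' (hW2 _ hy' _ hzu)
      · by_cases hz0 : comp b deg e z u = 0
        · rw [hbr, hz0, map_zero, add_zero]
          exact hbr'
        have hoE : Occurs b deg U (e * d₀) := occurs_of hzu.1 hzu.2 hz0
        by_cases h00 : comp b deg e z (comp b deg d y u) = 0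
        · rw [h00]
          exact W.zero_mem
        have h1 : comp b deg e z (comp b deg d y u) ∈ part b deg (e * (d * d₀)) ⊓ U :=
          ⟨comp_mem_part b deg e z hu'.1, hst hz' _ hu'.2⟩
        have h2 : e * (d * d₀) = d * d₀ * (e * d₀) * d₀⁻¹ := by
          rw [← mul_assoc (d * d₀) e d₀, mul_inv_cancel_right, mul_comm (d * d₀) e]
        have h3 : Occurs b deg U (d * d₀ * (e * d₀) * d₀⁻¹) := by
          rw [← h2]
          exact occurs_of h1.1 h1.2 h00
        have h4 := hsf _ _ hD hE hoD hoE h3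
        have h5 : e * (d * d₀) = d₀ := by
          rw [h2, h4, mul_inv_cancel_right]
        rw [h5] at h1
        exact hW1 _ h1
  have hWst : ∀ z ∈ lieT R χ, ∀ w ∈ W, z w ∈ W := by
    intro z hz w hw
    rw [hWd] at hw
    obtain ⟨u, hu, v, hv, rfl⟩ := Submodule.mem_sup.1 hw
    rw [map_add]
    refine W.add_mem (hW2 z hz u hu) ?_
    clear hw
    induction hv using Submodule.span_induction with
    | mem x hx =>
      obtain ⟨y, hy, u', hu', rfl⟩ := hx
      conv =>
        rw [← sum_comp b deg z, ← sum_comp b deg y]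
      rw [LinearMap.sum_apply]
      refine W.sum_mem fun e _ => ?_
      rw [LinearMap.sum_apply, map_sum]
      exact W.sum_mem fun d _ => hhom z hz y hy u' hu' e d
    | zero =>
      rw [map_zero]
      exact W.zero_mem
    | add x y _ _ hx hy =>
      rw [map_add]
      exact W.add_mem hx hy
    | smul t x _ hx =>
      rw [map_smul]
      exact W.smul_mem _ hx
  have hWtop : W = U := by
    rcases irr_lie ω hnd hωR hss hP hU hWU hWst with h | h
    · exfalso
      apply h0
      rw [eq_bot_iff, ← h]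
      exact hW1
    · exact h
  by_contra hcon
  push Not at hcon
  -- the projection to degree `c` kills `W`
  have hkill : ∀ w ∈ W, pr b deg c w = 0 := by
    intro w hw
    rw [hWd] at hw
    obtain ⟨u, hu, v, hv, rfl⟩ := Submodule.mem_sup.1 hw
    rw [map_add, pr_of_mem_ne b deg (Ne.symm hc) hu.1, zero_add]
    clear hw
    induction hv using Submodule.span_induction with
    | mem x hx =>
      obtain ⟨y, hy, u', hu', rfl⟩ := hx
      have h1 := hcon y hy u' hu'
      rw [comp_apply_part b deg _ y hu'.1, inv_mul_cancel_right] at h1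
      exact h1
    | zero => exact map_zero _
    | add x y _ _ hx hy => rw [map_add, hx, hy, add_zero]
    | smul t x _ hx => rw [map_smul, hx, smul_zero]
  apply hcU
  rw [eq_bot_iff]
  intro v hv
  have h1 := hkill v (by rw [hWtop]; exact hv.2)
  rw [pr_of_mem b deg hv.1] at h1
  rw [h1]
  exact Submodule.zero_mem _

include hnd hωR hss in
/-- The component of degree `κ` has square zero on strongly irreducible subspaces with few chains. -/
theorem sq_zero_on (hg : IsClassGrading R γ H b deg) {e : Fin r → Kˣ}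
    (he : ∀ k, (e k : K) = χ (γ k)) {κ : Cl H} {y : Module.End K X} (hy : y ∈ lieT R χ)
    {U' : Submodule K X} (hU' : SI R U')
    (hch : ∀ d, Occurs b deg U' d → Occurs b deg U' (d * κ) → Occurs b deg U' (d * κ * κ) →
      IsSymplectic R χ U' ∧ d * κ * (d * κ) = cls H e ∧
        finrank K (part b deg (d * κ * κ) ⊓ U' : Submodule K X) ≤ 1) {v : X} (hv : v ∈ U') :
    comp b deg κ y (comp b deg κ y v) = 0 := by
  classical
  have hx : comp b deg κ y ∈ lieT R χ := comp_mem_lie hg κ hy
  have hst : ∀ u ∈ U', comp b deg κ y u ∈ U' := lieT_stable ω hnd hωR hss hU'.2.1 hx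
  rw [← sum_pr b deg v, map_sum, map_sum]
  refine Finset.sum_eq_zero fun d _ => ?_
  by_contra hne
  have hvd : pr b deg d v ∈ part b deg d := pr_mem b deg d v
  have hvU : pr b deg d v ∈ U' := pr_stable hg hss hU'.2.1 d v hv
  generalize pr b deg d v = v' at hne hvd hvU
  have h1 : comp b deg κ y v' ∈ part b deg (d * κ) := by
    rw [mul_comm]
    exact comp_mem_part b deg κ y hvd
  have h2 : comp b deg κ y (comp b deg κ y v') ∈ part b deg (d * κ * κ) := by
    rw [mul_comm]
    exact comp_mem_part b deg κ y h1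
  have h1U := hst v' hvU
  have h2U := hst _ h1U
  obtain ⟨hsym, hee, hfin⟩ := hch d (occurs_of hvd hvU fun h => hne (by rw [h, map_zero, map_zero]))
    (occurs_of h1 h1U fun h => hne (by rw [h, map_zero])) (occurs_of h2 h2U hne)
  obtain ⟨Δ, hΔ, B, hB0, hBalt, hB⟩ := hsym
  have hsk := lieT_skew ω hnd hωR hss hU'.2.1 hΔ B hB hx
  have h3 : B (comp b deg κ y (comp b deg κ y v')) v' = 0 := by
    have h4 := hsk _ h1U _ hvU
    rw [hBalt _ h1U, add_zero] at h4
    exact h4
  obtain ⟨w, hw⟩ : ∃ w, w = comp b deg κ y (comp b deg κ y v') := ⟨_, rfl⟩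
  rw [← hw] at h3 hne h2 h2U
  have hv0 : v' = 0 := by
    refine du_right hU'.2.1 hU' hΔ hB0 hB v' hvU fun u hu => ?_
    rw [← sum_pr b deg u, map_sum, LinearMap.sum_apply]
    refine Finset.sum_eq_zero fun f _ => ?_
    by_cases hf : f * d = cls H e
    · have hf' : f = d * κ * κ := by
        rw [← hee] at hf
        have h5 : f * d = d * κ * κ * d := by
          rw [hf]
          simp only [mul_comm, mul_left_comm]
        exact mul_right_cancel h5
      have h6 : pr b deg f u ∈ part b deg (d * κ * κ) ⊓ U' := by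
        rw [← hf']
        exact ⟨pr_mem b deg f u, pr_stable hg hss hU'.2.1 f u hu⟩
      have h7 : ∃ t : K, t • w = pr b deg f u := by
        obtain ⟨w', hw'⟩ := finrank_le_one_iff.1 hfin
        obtain ⟨t1, ht1⟩ := hw' ⟨w, h2, h2U⟩
        obtain ⟨t2, ht2⟩ := hw' ⟨_, h6⟩
        have ht1' : t1 • (w' : X) = w := congrArg Subtype.val ht1
        have ht2' : t2 • (w' : X) = pr b deg f u := congrArg Subtype.val ht2
        have ht0 : t1 ≠ 0 := by
          rintro rfl
          rw [zero_smul] at ht1'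
          exact hne ht1'.symm
        refine ⟨t2 * t1⁻¹, ?_⟩
        rw [← ht1', ← ht2', smul_smul, mul_assoc, inv_mul_cancel₀ ht0, mul_one]
      obtain ⟨t, ht⟩ := h7
      rw [← ht, map_smul, LinearMap.smul_apply, h3, smul_zero]
    · exact form_ext hg ω hnd hωR hss hU'.2.1 hΔ B hB he hf (pr_stable hg hss hU'.2.1 f u hu) hvU
        (pr_mem b deg f u) hvd
  apply hne
  rw [hw, hv0, map_zero, map_zero]

include hnd hωR hss in
/-- The pairing of the part of degree `c` with a vector depends on one part of the vector only. -/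
theorem pair_part (hg : IsClassGrading R γ H b deg) {e : Fin r → Kˣ}
    (he : ∀ k, (e k : K) = χ (γ k)) {U : Submodule K X} (hU : SI R U) {Δ : Subgroup Γ}
    (hΔ : Δ.FiniteIndex) (B : X →ₗ[K] X →ₗ[K] K)
    (hB : ∀ g ∈ Δ, ∀ u ∈ U, ∀ v ∈ U, B (R g u) (R g v) = χ g * B u v) {c d₁ : Cl H}
    (hcd : c * d₁ = cls H e) {w : X} (hw : w ∈ part b deg c ⊓ U) {v : X} (hv : v ∈ U) :
    B w v = B w (pr b deg d₁ v) := by
  classical
  conv_lhs => rw [← sum_pr b deg v, map_sum]
  rw [Finset.sum_eq_single d₁]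
  · intro f _ hf
    refine form_ext hg ω hnd hωR hss hU.2.1 hΔ B hB he ?_ hw.2
      (pr_stable hg hss hU.2.1 f v hv) hw.1 (pr_mem b deg f v)
    intro h
    rw [← hcd] at h
    exact hf (mul_left_cancel h)
  · intro hmem
    have h1 : pr b deg d₁ = 0 := by
      refine b.ext fun i => ?_
      rw [pr_basis, if_neg]
      · rfl
      · intro hi
        exact hmem (hi ▸ Finset.mem_image_of_mem _ (Finset.mem_univ i))
    rw [h1, LinearMap.zero_apply, map_zero]

include hnd hωR hss in
/-- A self-dual class does not have multiplicity one on a symplectic subspace. -/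
theorem ne_one_of_self (hg : IsClassGrading R γ H b deg) {e : Fin r → Kˣ}
    (he : ∀ k, (e k : K) = χ (γ k)) {U : Submodule K X} (hU : SI R U) (hsym : IsSymplectic R χ U)
    {c : Cl H} (hcc : c * c = cls H e) : finrank K (part b deg c ⊓ U : Submodule K X) ≠ 1 := by
  intro h1
  obtain ⟨Δ, hΔ, B, hB0, hBalt, hB⟩ := id hsym
  obtain ⟨⟨u, hu⟩, hu0, hall⟩ := finrank_eq_one_iff'.1 h1
  apply hu0
  refine Subtype.ext (du_left hU hU.2.1 hΔ hB0 hB u hu.2 fun v hv => ?_)
  rw [pair_part ω hnd hωR hss hg he hU hΔ B hB hcc hu hv]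
  obtain ⟨t, ht⟩ := hall ⟨pr b deg c v, pr_mem b deg c v, pr_stable hg hss hU.2.1 c v hv⟩
  have ht' : t • u = pr b deg c v := congrArg Subtype.val ht
  rw [← ht', map_smul, hBalt u hu.2, smul_zero]

variable [IsAlgClosed K]

include hnd hωR hss in
/-- Square-zero elements of rank one. -/
theorem one_of_sumFree (hP : Pool.Agent.Y126.Notions.WeakHodgeGenerate R χ)
    {U : Submodule K X} (hU : SI R U) (hU2 : 2 ≤ finrank K U)
    (h : HasSumFreeClasses R χ U) : ∃ e ∈ lieT R χ, e * e = 0 ∧ finrank K (U.map e) = 1 := by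
  classical
  have hP' : Pool.Agent.W528.Odd.WeakHodgeGenerate R χ := fun P hP' => hP P fun x hx => hP' x hx.2 hx.1
  obtain ⟨r, n, γ, H, b, deg, e, d₀, c, hg, he, h0, hsf, hc, hc1, hcase⟩ := h
  unfold mult at hc1
  have hcU : Occurs b deg U c := by
    intro h
    rw [h, finrank_bot] at hc1
    exact zero_ne_one hc1
  have hch : ∀ d, Occurs b deg U d → Occurs b deg U (d * (c * d₀⁻¹)) →
      Occurs b deg U (d * (c * d₀⁻¹) * (c * d₀⁻¹)) → IsSymplectic R χ U ∧
        d * (c * d₀⁻¹) * (d * (c * d₀⁻¹)) = cls H e ∧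
        finrank K (part b deg (d * (c * d₀⁻¹) * (c * d₀⁻¹)) ⊓ U : Submodule K X) ≤ 1 := by
    intro d hd1 hd2 hd3
    by_cases hd : d = d₀
    · exfalso
      have e1 : d * (c * d₀⁻¹) * (c * d₀⁻¹) = c * c * d₀⁻¹ := by
        rw [hd]
        calc d₀ * (c * d₀⁻¹) * (c * d₀⁻¹) = c * c * d₀⁻¹ * (d₀ * d₀⁻¹) := by ac_rfl
          _ = c * c * d₀⁻¹ := by rw [mul_inv_cancel, mul_one]
      rw [e1] at hd3
      have e2 := hsf c c hc hc hcU hcU hd3
      rcases hcase with h | ⟨hsym, hee⟩
      · apply h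
        rw [← e2, mul_inv_cancel_right]
        exact hcU
      · exact ne_one_of_self ω hnd hωR hss hg he hU hsym (e2.trans hee) hc1
    · have e3 : d * (c * d₀⁻¹) = d * c * d₀⁻¹ := (mul_assoc _ _ _).symm
      have e4 : d * c = d₀ * d₀ := hsf d c hd hc hd1 hcU (by rw [← e3]; exact hd2)
      have e5 : d * (c * d₀⁻¹) = d₀ := by rw [e3, e4, mul_inv_cancel_right]
      have e6 : d = d₀ * d₀ * c⁻¹ := by rw [← e4, mul_inv_cancel_right]
      rcases hcase with h | ⟨hsym, hee⟩
      · exact absurd (by rw [← e6]; exact hd1) h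
      · refine ⟨hsym, by rw [e5, hee], ?_⟩
        have e7 : d₀ * (c * d₀⁻¹) = c := by rw [mul_comm, inv_mul_cancel_right]
        rw [e5, e7, hc1]
  obtain ⟨y, hy, u, hu, hyu⟩ := exists_comp ω hnd hωR hss hP' hU hg h0 hsf hc hcU
  obtain ⟨κ, hκ⟩ : ∃ κ, κ = c * d₀⁻¹ := ⟨_, rfl⟩
  rw [← hκ] at hyu hch
  have hκd : κ * d₀ = c := by rw [hκ, inv_mul_cancel_right]
  have hxx : ∀ v ∈ U, comp b deg κ y (comp b deg κ y v) = 0 := fun v hv =>
    sq_zero_on ω hnd hωR hss hg he hy hU hch hv
  obtain ⟨x, hx⟩ : ∃ x, x = comp b deg κ y := ⟨_, rfl⟩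
  have hxm : x ∈ lieT R χ := by rw [hx]; exact comp_mem_lie hg κ hy
  have hst : ∀ u ∈ U, x u ∈ U := lieT_stable ω hnd hωR hss hU.2.1 hxm
  have hxp : ∀ {d : Cl H} {v : X}, v ∈ part b deg d → x v ∈ part b deg (κ * d) := by
    intro d v hv
    rw [hx]
    exact comp_mem_part b deg κ y hv
  rw [← hx] at hxx hyu
  have hxu : x u ∈ part b deg c ⊓ U := ⟨by rw [← hκd]; exact hxp hu.1, hst u hu.2⟩
  -- the image of `x`
  have him : ∀ v ∈ U, ∀ d, d ≠ d₀ → x (pr b deg d v) ≠ 0 → d = d₀ * d₀ * c⁻¹ := by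
    intro v hv d hd hne
    have hvd : pr b deg d v ∈ part b deg d := pr_mem b deg d v
    have hvU : pr b deg d v ∈ U := pr_stable hg hss hU.2.1 d v hv
    have h1 : Occurs b deg U d := occurs_of hvd hvU fun h => hne (by rw [h, map_zero])
    have h2 : Occurs b deg U (d * c * d₀⁻¹) := by
      have h3 : d * c * d₀⁻¹ = κ * d := by
        rw [hκ, mul_assoc, mul_comm]
      rw [h3]
      exact occurs_of (hxp hvd) (hst _ hvU) hne
    rw [← hsf d c hd hc h1 hcU h2, mul_inv_cancel_right]
  rcases hcase with hno | ⟨hsym, hee⟩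
  · -- the image is the line of degree `c`
    refine one_of_elt ω hnd hωR hss hP' hU hU2 hxm hxx (Or.inl ?_)
    have hle : U.map x ≤ part b deg c ⊓ U := by
      rintro _ ⟨v, hv, rfl⟩
      refine ⟨?_, hst v hv⟩
      rw [← sum_pr b deg v, map_sum]
      refine Submodule.sum_mem _ fun d _ => ?_
      by_cases hd : d = d₀
      · rw [hd, ← hκd]
        exact hxp (pr_mem b deg d₀ v)
      · by_cases hne : x (pr b deg d v) = 0
        · rw [hne]
          exact Submodule.zero_mem _
        · exfalso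
          apply hno
          rw [← him v hv d hd hne]
          exact occurs_of (pr_mem b deg d v) (pr_stable hg hss hU.2.1 d v hv)
            fun h => hne (by rw [h, map_zero])
    have h1 : finrank K (U.map x) ≤ 1 := by
      rw [← hc1]
      exact Submodule.finrank_mono hle
    have h2 : finrank K (U.map x) ≠ 0 := by
      intro h
      rw [Submodule.finrank_eq_zero] at h
      have h3 : x u ∈ U.map x := Submodule.mem_map_of_mem hu.2
      rw [h, Submodule.mem_bot] at h3
      exact hyu h3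
    omega
  · -- the symplectic case
    obtain ⟨Δ, hΔ, B, hB0, hBalt, hB⟩ := id hsym
    have hsk := lieT_skew ω hnd hωR hss hU.2.1 hΔ B hB hxm
    obtain ⟨d₁, hd₁⟩ : ∃ d₁, d₁ = d₀ * d₀ * c⁻¹ := ⟨_, rfl⟩
    have hcd : c * d₁ = cls H e := by
      rw [hd₁, ← hee, mul_comm, inv_mul_cancel_right]
    have hpair : ∀ w ∈ part b deg c ⊓ U, ∀ v ∈ U, B w v = B w (pr b deg d₁ v) := fun w hw v hv =>
      pair_part ω hnd hωR hss hg he hU hΔ B hB hcd hw hv
    -- a vector of degree `d₁` that pairs with `x u`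
    obtain ⟨v₁, hv₁, hBv₁⟩ : ∃ v₁ ∈ part b deg d₁ ⊓ U, B (x u) v₁ ≠ 0 := by
      by_contra hcon
      push Not at hcon
      apply hyu
      refine du_left hU hU.2.1 hΔ hB0 hB _ hxu.2 fun v hv => ?_
      rw [hpair _ hxu v hv]
      exact hcon _ ⟨pr_mem b deg d₁ v, pr_stable hg hss hU.2.1 d₁ v hv⟩
    have hxv₁ : x v₁ ≠ 0 := by
      intro h
      have h1 := hsk u hu.2 v₁ hv₁.2
      rw [h, map_zero, add_zero] at h1
      exact hBv₁ h1
    have hκd₁ : κ * d₁ = d₀ := by
      rw [hκ, hd₁]
      calc c * d₀⁻¹ * (d₀ * d₀ * c⁻¹) = d₀ * (d₀ * d₀⁻¹) * (c * c⁻¹) := by ac_rfl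
        _ = d₀ := by rw [mul_inv_cancel, mul_inv_cancel, mul_one, mul_one]
    have hxv₁m : x v₁ ∈ part b deg d₀ := by
      rw [← hκd₁]
      exact hxp hv₁.1
    -- the part of degree `d₁` is the line of `v₁`
    have hline : ∀ v ∈ part b deg d₁ ⊓ U, ∃ t : K, v = t • v₁ := by
      intro v hv
      refine ⟨B (x u) v * (B (x u) v₁)⁻¹, ?_⟩
      rw [← sub_eq_zero]
      have hz : v - (B (x u) v * (B (x u) v₁)⁻¹) • v₁ ∈ part b deg d₁ ⊓ U :=
        Submodule.sub_mem _ hv (Submodule.smul_mem _ _ hv₁)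
      have hz0 : B (x u) (v - (B (x u) v * (B (x u) v₁)⁻¹) • v₁) = 0 := by
        rw [map_sub, map_smul, smul_eq_mul, mul_assoc, inv_mul_cancel₀ hBv₁, mul_one, sub_self]
      generalize v - (B (x u) v * (B (x u) v₁)⁻¹) • v₁ = z at hz hz0
      refine du_right hU.2.1 hU hΔ hB0 hB z hz.2 fun w hw => ?_
      rw [← sum_pr b deg w, map_sum, LinearMap.sum_apply]
      refine Finset.sum_eq_zero fun f _ => ?_
      by_cases hf : f = c
      · have h6 : pr b deg f w ∈ part b deg c ⊓ U := by
          rw [← hf]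
          exact ⟨pr_mem b deg f w, pr_stable hg hss hU.2.1 f w hw⟩
        obtain ⟨w', hw'⟩ := finrank_le_one_iff.1 hc1.le
        obtain ⟨t1, ht1⟩ := hw' ⟨x u, hxu⟩
        obtain ⟨t2, ht2⟩ := hw' ⟨_, h6⟩
        have ht1' : t1 • (w' : X) = x u := congrArg Subtype.val ht1
        have ht2' : t2 • (w' : X) = pr b deg f w := congrArg Subtype.val ht2
        have ht0 : t1 ≠ 0 := by
          rintro rfl
          rw [zero_smul] at ht1'
          exact hyu ht1'.symm
        have h8 : pr b deg f w = (t2 * t1⁻¹) • x u := by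
          rw [← ht1', ← ht2', smul_smul, mul_assoc, inv_mul_cancel₀ ht0, mul_one]
        rw [h8, map_smul, LinearMap.smul_apply, hz0, smul_zero]
      · refine form_ext hg ω hnd hωR hss hU.2.1 hΔ B hB he ?_ (pr_stable hg hss hU.2.1 f w hw)
          hz.2 (pr_mem b deg f w) hz.1
        intro h
        rw [← hcd] at h
        exact hf (mul_right_cancel h)
    have hspan : U.map x = Submodule.span K {x u, x v₁} := by
      apply le_antisymm
      · rintro _ ⟨v, hv, rfl⟩
        rw [← sum_pr b deg v, map_sum]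
        refine Submodule.sum_mem _ fun d _ => ?_
        by_cases hd : d = d₀
        · have h6 : x (pr b deg d v) ∈ part b deg c ⊓ U := by
            rw [hd, ← hκd]
            exact ⟨hxp (pr_mem b deg d₀ v), hst _ (pr_stable hg hss hU.2.1 d₀ v hv)⟩
          obtain ⟨w', hw'⟩ := finrank_le_one_iff.1 hc1.le
          obtain ⟨t1, ht1⟩ := hw' ⟨x u, hxu⟩
          obtain ⟨t2, ht2⟩ := hw' ⟨_, h6⟩
          have ht1' : t1 • (w' : X) = x u := congrArg Subtype.val ht1
          have ht2' : t2 • (w' : X) = x (pr b deg d v) := congrArg Subtype.val ht2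
          have ht0 : t1 ≠ 0 := by
            rintro rfl
            rw [zero_smul] at ht1'
            exact hyu ht1'.symm
          have h8 : x (pr b deg d v) = (t2 * t1⁻¹) • x u := by
            rw [← ht1', ← ht2', smul_smul, mul_assoc, inv_mul_cancel₀ ht0, mul_one]
          rw [h8]
          exact Submodule.smul_mem _ _ (Submodule.subset_span (Set.mem_insert _ _))
        · by_cases hne : x (pr b deg d v) = 0
          · rw [hne]
            exact Submodule.zero_mem _
          · have h9 := him v hv d hd hne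
            rw [← hd₁] at h9
            obtain ⟨t, ht⟩ := hline (pr b deg d v) (by
              rw [h9]
              exact ⟨pr_mem b deg d₁ v, pr_stable hg hss hU.2.1 d₁ v hv⟩)
            rw [ht, map_smul]
            exact Submodule.smul_mem _ _ (Submodule.subset_span (Set.mem_insert_of_mem _ rfl))
      · rw [Submodule.span_le]
        rintro z (rfl | rfl)
        · exact Submodule.mem_map_of_mem hu.2
        · exact Submodule.mem_map_of_mem hv₁.2
    have hli : LinearIndependent K ![x u, x v₁] := by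
      rw [LinearIndependent.pair_iff]
      intro s t hst'
      have h1 := congrArg (pr b deg c) hst'
      rw [map_add, map_smul, map_smul, pr_of_mem b deg hxu.1,
        pr_of_mem_ne b deg (Ne.symm hc) hxv₁m, smul_zero, add_zero, map_zero] at h1
      have hs : s = 0 := (smul_eq_zero.1 h1).resolve_right hyu
      rw [hs, zero_smul, zero_add] at hst'
      exact ⟨hs, (smul_eq_zero.1 hst').resolve_right hxv₁⟩
    have hrk : finrank K (U.map x) = 2 := by
      rw [hspan]
      have h1 : Set.range ![x u, x v₁] = {x u, x v₁} := Matrix.range_cons_cons_empty _ _ _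
      rw [← h1]
      exact (finrank_span_eq_card hli).trans (Fintype.card_fin 2)
    exact one_of_elt ω hnd hωR hss hP' hU hU2 hxm hxx (Or.inr ⟨hsym, hrk⟩)

end lemmas

end

end Pool.Agent.T9h64.MT
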