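import Mathlib
import Pool.Agent.T9h64.MT.Main

/-!
# Square-zero elements of rank one or two from classes with a large part
-/

set_option autoImplicit false
set_option linter.unusedSectionVars false

namespace Pool.Agent.T9h64.MT

open Module Pool.Agent.Y126.Notions
open Pool.Agent.H204R3.SP Pool.Agent.H204R3.GP Pool.Agent.W522.U
open Pool.Agent.W528.Odd Pool.Agent.Y126.OT Pool.Agent.TH118.CR Pool.Agent.Y126.Toric

noncomputable section

section lin

variable {K X : Type} [Field K] [AddCommGroup X] [Module K X] {n : ℕ} {A : Type} [CommGroup A]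
  (b : Basis (Fin n) K X) (deg : Fin n → A)

/-- The component of degree `κ` as a linear map. -/
def compL (κ : A) : Module.End K X →ₗ[K] Module.End K X where
  toFun := comp b deg κ
  map_add' y z := by
    refine ext_repr b fun i j => ?_
    rw [LinearMap.add_apply, map_add, Finsupp.add_apply, comp, comp, comp, tw_repr, tw_repr,
      tw_repr, LinearMap.add_apply, map_add, Finsupp.add_apply, mul_add]
  map_smul' c y := by
    refine ext_repr b fun i j => ?_
    rw [RingHom.id_apply, LinearMap.smul_apply, map_smul, Finsupp.smul_apply, comp, comp, tw_repr,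
      tw_repr, LinearMap.smul_apply, map_smul, Finsupp.smul_apply, smul_eq_mul, smul_eq_mul]
    ring

theorem compL_apply (κ : A) (y : Module.End K X) : compL b deg κ y = comp b deg κ y := rfl

end lin

section main

variable {K : Type} [Field K] [CharZero K] {X : Type} [AddCommGroup X] [Module K X]
  [FiniteDimensional K X] {Γ : Type} [Group Γ] {R : Representation K Γ X} {χ : Γ →* K}
  {r n : ℕ} {γ : Fin r → Γ} {H : Subgroup (Fin r → Kˣ)} {b : Basis (Fin n) K X}
  {deg : Fin n → Cl H}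
  (ω : X →ₗ[K] X →ₗ[K] K) (hnd : ∀ u, (∀ v, ω u v = 0) → u = 0)
  (hωR : ∀ g u v, ω (R g u) (R g v) = χ g * ω u v) (hss : HasProj R)

/-- The map that sends a family `y` of elements of the Lie algebra to the sum of the vectors
`y i (u i)`, where only the component of degree `κ i` of `y i` is used. -/
def evL {ι : Type} [Fintype ι] (R : Representation K Γ X) (χ : Γ →* K) (b : Basis (Fin n) K X)
    (deg : Fin n → Cl H) (κ : ι → Cl H) (u : ι → X) : (ι → lieT R χ) →ₗ[K] X :=
  ∑ i, ((LinearMap.applyₗ (u i) : Module.End K X →ₗ[K] X).comp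
    ((compL b deg (κ i)).comp ((lieT R χ).subtype.comp (LinearMap.proj i))))

theorem evL_apply {ι : Type} [Fintype ι] (κ : ι → Cl H) (u : ι → X) (y : ι → lieT R χ) :
    evL R χ b deg κ u y = ∑ i, comp b deg (κ i) (y i) (u i) := by
  unfold evL
  rw [LinearMap.sum_apply]
  rfl

theorem comp_mem_range {ι : Type} [Fintype ι] (κ : ι → Cl H) (u : ι → X) (i : ι)
    {y : Module.End K X} (hy : y ∈ lieT R χ) :
    comp b deg (κ i) y (u i) ∈ LinearMap.range (evL R χ b deg κ u) := by
  classical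
  refine ⟨Pi.single i ⟨y, hy⟩, ?_⟩
  rw [evL_apply, Finset.sum_eq_single i]
  · rw [Pi.single_eq_same]
  · intro j _ hj
    rw [Pi.single_eq_of_ne hj, ← compL_apply]
    simp
  · intro h
    exact absurd (Finset.mem_univ i) h

include hnd hωR hss in
/-- The part of degree `d₀` is the sum of the images of the other parts, which are lines. -/
theorem le_range_evL (hP : Pool.Agent.W528.Odd.WeakHodgeGenerate R χ) {U : Submodule K X}
    (hU : SI R U) (hg : IsClassGrading R γ H b deg) {d₀ : Cl H} {ι : Type} [Fintype ι]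
    [Nonempty ι] (cl : ι → Cl H) (hcl0 : ∀ i, cl i ≠ d₀)
    (hcl : ∀ d, d ≠ d₀ → Occurs b deg U d → ∃ i, cl i = d) (u : ι → X)
    (hu : ∀ i, u i ∈ part b deg (cl i) ⊓ U) (hu0 : ∀ i, u i ≠ 0)
    (hline : ∀ i, ∀ v ∈ part b deg (cl i) ⊓ U, ∃ t : K, v = t • u i) :
    part b deg d₀ ⊓ U ≤ LinearMap.range (evL R χ b deg (fun i => d₀ * (cl i)⁻¹) u) := by
  classical
  have hst : ∀ {y : Module.End K X}, y ∈ lieT R χ → ∀ v ∈ U, y v ∈ U := fun hy =>
    lieT_stable ω hnd hωR hss hU.2.1 hy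
  obtain ⟨P, hPd⟩ : ∃ P, P = LinearMap.range (evL R χ b deg (fun i => d₀ * (cl i)⁻¹) u) := ⟨_, rfl⟩
  rw [← hPd]
  obtain ⟨S, hSd⟩ : ∃ S : Submodule K X, S = Submodule.span K (Set.range u) := ⟨_, rfl⟩
  have hS : ∀ i, u i ∈ S := fun i => by rw [hSd]; exact Submodule.subset_span ⟨i, rfl⟩
  have hPc : ∀ i, ∀ y ∈ lieT R χ, comp b deg (d₀ * (cl i)⁻¹) y (u i) ∈ P := fun i y hy => by
    rw [hPd]
    exact comp_mem_range (fun i => d₀ * (cl i)⁻¹) u i hy
  have hP0 : P ≤ part b deg d₀ ⊓ U := by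
    rw [hPd]
    rintro _ ⟨y, rfl⟩
    rw [evL_apply]
    refine Submodule.sum_mem _ fun i _ => ⟨?_, hst (comp_mem_lie hg _ (y i).2) _ (hu i).2⟩
    have h1 := comp_mem_part b deg (d₀ * (cl i)⁻¹) (y i : Module.End K X) (hu i).1
    rwa [inv_mul_cancel_right] at h1
  have hSU : S ≤ U := by
    rw [hSd, Submodule.span_le]
    rintro _ ⟨i, rfl⟩
    exact (hu i).2
  -- homogeneous vectors of degree different from `d₀` belong to `S`
  have hhom : ∀ d, d ≠ d₀ → ∀ v ∈ part b deg d ⊓ U, v ∈ S := by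
    intro d hd v hv
    by_cases h0 : v = 0
    · rw [h0]
      exact S.zero_mem
    obtain ⟨i, rfl⟩ := hcl d hd (occurs_of hv.1 hv.2 h0)
    obtain ⟨t, rfl⟩ := hline i v hv
    exact S.smul_mem _ (hS i)
  have hW : ∀ z ∈ lieT R χ, ∀ w ∈ S ⊔ P, z w ∈ S ⊔ P := by
    intro z hz w hw
    obtain ⟨s, hs, p, hp, rfl⟩ := Submodule.mem_sup.1 hw
    clear hw
    rw [map_add]
    refine Submodule.add_mem _ ?_ ?_
    · rw [hSd] at hs
      induction hs using Submodule.span_induction with
      | mem x hx =>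
        obtain ⟨i, rfl⟩ := hx
        rw [← sum_comp b deg z, LinearMap.sum_apply]
        refine Submodule.sum_mem _ fun κ _ => ?_
        have h1 := comp_mem_part b deg κ z (hu i).1
        by_cases hκ : κ * cl i = d₀
        · refine Submodule.mem_sup_right ?_
          have h2 : κ = d₀ * (cl i)⁻¹ := by rw [← hκ, mul_inv_cancel_right]
          rw [h2]
          exact hPc i z hz
        · exact Submodule.mem_sup_left (hhom _ hκ _ ⟨h1, hst (comp_mem_lie hg κ hz) _ (hu i).2⟩)
      | zero =>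
        rw [map_zero]
        exact Submodule.zero_mem _
      | add x y _ _ hx hy =>
        rw [map_add]
        exact Submodule.add_mem _ hx hy
      | smul c x _ hx =>
        rw [map_smul]
        exact Submodule.smul_mem _ _ hx
    · have hp' := hp
      rw [hPd] at hp'
      obtain ⟨y, rfl⟩ := hp'
      have hpP := hP0 hp
      rw [← sum_comp b deg z, LinearMap.sum_apply]
      refine Submodule.sum_mem _ fun κ _ => ?_
      have hzκ := comp_mem_lie hg κ hz
      have h1 := comp_mem_part b deg κ z hpP.1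
      by_cases hκ : κ * d₀ = d₀
      · refine Submodule.mem_sup_right ?_
        have hκ1 : κ = 1 := mul_right_cancel (hκ.trans (one_mul d₀).symm)
        subst hκ1
        rw [evL_apply, map_sum]
        refine Submodule.sum_mem _ fun i _ => ?_
        have hy' := comp_mem_lie hg (d₀ * (cl i)⁻¹) (y i).2
        obtain ⟨z₁, hz₁⟩ : ∃ z₁, z₁ = comp b deg 1 z := ⟨_, rfl⟩
        obtain ⟨y₁, hy₁⟩ : ∃ y₁, y₁ = comp b deg (d₀ * (cl i)⁻¹) (y i : Module.End K X) := ⟨_, rfl⟩
        rw [← hz₁] at hzκ ⊢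
        rw [← hy₁] at hy' ⊢
        have hbr : z₁ (y₁ (u i)) = (z₁ * y₁ - y₁ * z₁) (u i) + y₁ (z₁ (u i)) := by
          rw [LinearMap.sub_apply, Module.End.mul_apply, Module.End.mul_apply, sub_add_cancel]
        have e1 : z₁ (u i) ∈ part b deg (cl i) ⊓ U := by
          refine ⟨?_, hst hzκ _ (hu i).2⟩
          have := comp_mem_part b deg 1 z (hu i).1
          rwa [one_mul, ← hz₁] at this
        obtain ⟨t, ht⟩ := hline i _ e1
        have e2 : y₁ (u i) ∈ P := by rw [hy₁]; exact hPc i _ (y i).2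
        have e3 : (z₁ * y₁ - y₁ * z₁) (u i) ∈ part b deg d₀ := by
          rw [LinearMap.sub_apply, Module.End.mul_apply, Module.End.mul_apply, ht, map_smul]
          refine Submodule.sub_mem _ ?_ (Submodule.smul_mem _ _ (hP0 e2).1)
          have := comp_mem_part b deg 1 z (hP0 e2).1
          rwa [one_mul, ← hz₁] at this
        have e4 : (z₁ * y₁ - y₁ * z₁) (u i) =
            comp b deg (d₀ * (cl i)⁻¹) (z₁ * y₁ - y₁ * z₁) (u i) := by
          rw [comp_apply_part b deg _ _ (hu i).1, inv_mul_cancel_right, pr_of_mem b deg e3]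
        rw [hbr, ht, map_smul, e4]
        exact P.add_mem (hPc i _ (lieT_bracket R χ hzκ hy')) (P.smul_mem _ e2)
      · exact Submodule.mem_sup_left (hhom _ hκ _ ⟨h1, hst hzκ _ hpP.2⟩)
  have htop : S ⊔ P = U := by
    rcases irr_lie ω hnd hωR hss hP hU (sup_le hSU (hP0.trans inf_le_right)) hW with h | h
    · exfalso
      obtain ⟨i⟩ := ‹Nonempty ι›
      have h1 : u i ∈ S ⊔ P := Submodule.mem_sup_left (hS i)
      rw [h, Submodule.mem_bot] at h1
      exact hu0 i h1
    · exact h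
  intro v hv
  have h1 : v ∈ S ⊔ P := by rw [htop]; exact hv.2
  obtain ⟨s, hs, p, hp, hsp⟩ := Submodule.mem_sup.1 h1
  have h2 : pr b deg d₀ s = 0 := by
    rw [hSd] at hs
    clear hsp
    induction hs using Submodule.span_induction with
    | mem x hx =>
      obtain ⟨i, rfl⟩ := hx
      exact pr_of_mem_ne b deg (hcl0 i) (hu i).1
    | zero => exact map_zero _
    | add x y _ _ hx hy => rw [map_add, hx, hy, add_zero]
    | smul c x _ hx => rw [map_smul, hx, smul_zero]
  have h3 : v = p := by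
    rw [← pr_of_mem b deg hv.1, ← hsp, map_add, h2, zero_add, pr_of_mem b deg (hP0 hp).1]
  rw [h3]
  exact hp

/-- The operator is homogeneous of degree `κ`. -/
def Homog (b : Basis (Fin n) K X) (deg : Fin n → Cl H) (κ : Cl H) (x : Module.End K X) : Prop :=
  ∀ d, ∀ v ∈ part b deg d, x v ∈ part b deg (κ * d)

include hnd hωR hss in
/-- The dimension count. -/
theorem exists_elt (hP : Pool.Agent.W528.Odd.WeakHodgeGenerate R χ) {U : Submodule K X}
    (hU : SI R U) (hg : IsClassGrading R γ H b deg) {d₀ : Cl H} {ι : Type} [Fintype ι]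
    [Nonempty ι] (cl : ι → Cl H) (hcl0 : ∀ i, cl i ≠ d₀)
    (hcl : ∀ d, d ≠ d₀ → Occurs b deg U d → ∃ i, cl i = d) (u : ι → X)
    (hu : ∀ i, u i ∈ part b deg (cl i) ⊓ U) (hu0 : ∀ i, u i ≠ 0)
    (hline : ∀ i, ∀ v ∈ part b deg (cl i) ⊓ U, ∃ t : K, v = t • u i)
    (T : Finset (ι × ι)) (hT0 : ∀ p ∈ T, cl p.1 ≠ cl p.2)
    (hT : ∀ i, ∀ x ∈ lieT R χ, Homog b deg (d₀ * (cl i)⁻¹) x →
      (∀ j, (i, j) ∈ T → x (u j) = 0) → ∀ j, j ≠ i → x (u j) = 0)
    (hcard : T.card < finrank K (part b deg d₀ ⊓ U : Submodule K X)) :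
    ∃ i, ∃ x ∈ lieT R χ, Homog b deg (d₀ * (cl i)⁻¹) x ∧ x (u i) ≠ 0 ∧
      ∀ j, j ≠ i → x (u j) = 0 := by
  classical
  have hst : ∀ {y : Module.End K X}, y ∈ lieT R χ → ∀ v ∈ U, y v ∈ U := fun hy =>
    lieT_stable ω hnd hωR hss hU.2.1 hy
  have hF : ∀ d, ∃ f : X →ₗ[K] K, d ≠ d₀ → ∀ v ∈ part b deg d ⊓ U, f v = 0 → v = 0 := by
    intro d
    by_cases hd : d ≠ d₀ ∧ Occurs b deg U d
    · obtain ⟨i, hi⟩ := hcl d hd.1 hd.2
      obtain ⟨f, hf⟩ : ∃ f : Module.Dual K X, f (u i) ≠ 0 := by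
        by_contra hcon
        push Not at hcon
        exact hu0 i ((Module.forall_dual_apply_eq_zero_iff K (u i)).1 hcon)
      refine ⟨f, fun _ v hv hfv => ?_⟩
      rw [← hi] at hv
      obtain ⟨t, rfl⟩ := hline i v hv
      rw [map_smul, smul_eq_mul] at hfv
      rw [(mul_eq_zero.1 hfv).resolve_right hf, zero_smul]
    · refine ⟨0, fun hd0 v hv _ => ?_⟩
      by_contra h0
      exact hd ⟨hd0, occurs_of hv.1 hv.2 h0⟩
  choose F hF using hF
  obtain ⟨κ, hκ⟩ : ∃ κ : ι → Cl H, κ = fun i => d₀ * (cl i)⁻¹ := ⟨_, rfl⟩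
  have hκi : ∀ i, κ i = d₀ * (cl i)⁻¹ := fun i => by rw [hκ]
  let Φ : (ι → lieT R χ) →ₗ[K] (T → K) := LinearMap.pi fun p =>
    (F (κ p.1.1 * cl p.1.2)).comp ((LinearMap.applyₗ (u p.1.2) : Module.End K X →ₗ[K] X).comp
      ((compL b deg (κ p.1.1)).comp ((lieT R χ).subtype.comp (LinearMap.proj p.1.1))))
  have hΦ : ∀ y (p : T), Φ y p =
      F (κ p.1.1 * cl p.1.2) (comp b deg (κ p.1.1) (y p.1.1) (u p.1.2)) := fun y p => rfl
  by_contra hcon
  push Not at hcon
  have hker : LinearMap.ker Φ ≤ LinearMap.ker (evL R χ b deg κ u) := by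
    intro y hy
    rw [LinearMap.mem_ker] at hy ⊢
    rw [evL_apply]
    refine Finset.sum_eq_zero fun i _ => ?_
    by_contra hne
    have hmem := comp_mem_lie hg (κ i) (y i).2
    have hhom : Homog b deg (d₀ * (cl i)⁻¹) (comp b deg (κ i) (y i : Module.End K X)) := by
      intro d v hv
      rw [← hκi]
      exact comp_mem_part b deg (κ i) _ hv
    obtain ⟨j, hj, hj0⟩ := hcon i _ hmem hhom hne
    refine hj0 (hT i _ hmem hhom (fun j hij => ?_) j hj)
    have h1 := congrFun hy ⟨(i, j), hij⟩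
    rw [hΦ] at h1
    refine hF _ ?_ _ ⟨comp_mem_part b deg (κ i) _ (hu j).1, hst hmem _ (hu j).2⟩ h1
    intro h2
    rw [hκi] at h2
    have h3 : d₀ * ((cl i)⁻¹ * cl j) = d₀ * 1 := by rw [← mul_assoc, h2, mul_one]
    have h4 := mul_left_cancel h3
    exact hT0 _ hij (inv_mul_eq_one.1 h4)
  have h1 := LinearMap.finrank_range_add_finrank_ker Φ
  have h2 := LinearMap.finrank_range_add_finrank_ker (evL R χ b deg κ u)
  have h3 := Submodule.finrank_mono hker
  have h4 : finrank K (LinearMap.range Φ) ≤ T.card := by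
    refine (Submodule.finrank_le _).trans ?_
    rw [Module.finrank_fintype_fun_eq_card, Fintype.card_coe]
  have h5 := Submodule.finrank_mono
    (le_range_evL ω hnd hωR hss hP hU hg cl hcl0 hcl u hu hu0 hline)
  rw [← hκ] at h5
  omega

/-- The number of the pairs whose second member precedes its partner. -/
theorem count_pairs {ι A : Type} [Fintype ι] [DecidableEq ι] [CommGroup A] (cl : ι → A)
    (hinj : Function.Injective cl) (d₀ : A) (hcl0 : ∀ i, cl i ≠ d₀) (idx : ι → ℕ)
    (hidx : Function.Injective idx) (T : Finset (ι × ι))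
    (hT : ∀ p ∈ T, p.1 ≠ p.2 ∧ ∃ k, cl k = d₀ * cl p.1 * (cl p.2)⁻¹ ∧ idx p.2 ≤ idx k) :
    2 * T.card ≤ Fintype.card ι * Fintype.card ι := by
  classical
  have hk : ∀ p : ι × ι, ∃ k, p ∈ T → cl k = d₀ * cl p.1 * (cl p.2)⁻¹ ∧ idx p.2 ≤ idx k := by
    intro p
    by_cases h : p ∈ T
    · obtain ⟨-, k, hk⟩ := hT p h
      exact ⟨k, fun _ => hk⟩
    · exact ⟨p.1, fun h' => absurd h' h⟩
  choose k hk using hk
  obtain ⟨T', hT'⟩ : ∃ T', T' = T.image fun p => (p.1, k p) := ⟨_, rfl⟩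
  have hc : T'.card = T.card := by
    rw [hT']
    refine Finset.card_image_of_injOn ?_
    rintro ⟨i, j⟩ hp ⟨i', j'⟩ hq hpq
    rw [Finset.mem_coe] at hp hq
    simp only [Prod.mk.injEq] at hpq
    obtain ⟨rfl, h2⟩ := hpq
    have h3 := (hk _ hp).1
    have h4 := (hk _ hq).1
    simp only at h3 h4
    rw [h2, h4] at h3
    have h5 := inv_injective (mul_left_cancel h3)
    rw [hinj h5]
  obtain ⟨F, hF⟩ : ∃ F : Finset (ι × ι), F = Finset.univ.filter
    (fun p : ι × ι => cl p.2 * cl p.2 = d₀ * cl p.1) := ⟨_, rfl⟩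
  have hFc : F.card ≤ Fintype.card ι := by
    rw [← Finset.card_univ]
    refine Finset.card_le_card_of_injOn Prod.snd (fun _ _ => Finset.mem_coe.2 (Finset.mem_univ _)) ?_
    rintro ⟨i, j⟩ hp ⟨i', j'⟩ hq hpq
    rw [Finset.mem_coe, hF, Finset.mem_filter] at hp hq
    simp only at hpq hp hq
    subst hpq
    rw [hinj (mul_left_cancel (hp.2.symm.trans hq.2))]
  have hcap : T ∩ T' ⊆ F := by
    rintro ⟨i, j⟩ hp
    rw [Finset.mem_inter] at hp
    obtain ⟨hp1, hp2⟩ := hp
    rw [hT', Finset.mem_image] at hp2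
    obtain ⟨⟨i', j'⟩, hq, heq⟩ := hp2
    simp only [Prod.mk.injEq] at heq
    obtain ⟨rfl, h2⟩ := heq
    have h3 := hk _ hq
    have h4 := hk _ hp1
    simp only at h3 h4
    rw [h2] at h3
    have h5 : cl (k (i', j)) = cl j' := by
      rw [h4.1, h3.1, mul_inv, inv_inv, mul_inv_cancel_left]
    rw [hinj h5] at h4
    have h6 : j = j' := hidx (le_antisymm h4.2 h3.2)
    subst h6
    rw [hF, Finset.mem_filter]
    refine ⟨Finset.mem_univ _, ?_⟩
    exact (congrArg (fun z => z * cl j) h3.1).trans (inv_mul_cancel_right _ _)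
  have hcup : T ∪ T' ⊆ Finset.univ.offDiag := by
    refine Finset.union_subset (fun p hp => ?_) ?_
    · rw [Finset.mem_offDiag]
      exact ⟨Finset.mem_univ _, Finset.mem_univ _, (hT p hp).1⟩
    · rw [hT']
      intro q hq
      rw [Finset.mem_image] at hq
      obtain ⟨p, hp, rfl⟩ := hq
      rw [Finset.mem_offDiag]
      refine ⟨Finset.mem_univ _, Finset.mem_univ _, fun h => ?_⟩
      simp only at h
      have h3 := (hk p hp).1
      rw [← h] at h3
      have h4 : cl p.2 = d₀ := by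
        have h5 : cl p.1 * cl p.2 = cl p.1 * d₀ := by
          conv_lhs => rw [h3]
          rw [inv_mul_cancel_right, mul_comm]
        exact mul_left_cancel h5
      exact hcl0 _ h4
  have h1 := Finset.card_union_add_card_inter T T'
  have h2 := Finset.card_le_card hcup
  rw [Finset.offDiag_card, Finset.card_univ] at h2
  have h3 := (Finset.card_le_card hcap).trans hFc
  have h4 : Fintype.card ι ≤ Fintype.card ι * Fintype.card ι := Nat.le_mul_self _
  omega

/-- The classes different from `d₀` that occur on `U`. -/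
def others (b : Basis (Fin n) K X) (deg : Fin n → Cl H) (U : Submodule K X) (d₀ : Cl H) :
    Set (Cl H) :=
  {d | d ≠ d₀ ∧ Occurs b deg U d}

theorem others_finite (U : Submodule K X) (d₀ : Cl H) : (others b deg U d₀).Finite := by
  refine (Set.finite_range deg).subset ?_
  rintro d ⟨-, hd⟩
  by_contra hn
  apply hd
  have h1 : part b deg d = ⊥ := by
    unfold part
    rw [Submodule.span_eq_bot]
    rintro x ⟨i, hi, -⟩
    exact absurd ⟨i, hi⟩ hn
  rw [h1, bot_inf_eq]

/-- There are commuting diagonalizable elements `γ k` of the group, which commute with the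
endomorphisms, and a subgroup `H` of `(Kˣ) ^ r`, such that for the classes modulo `H` of the families
of eigenvalues of the `γ k`: the `m` classes different from `d₀` that occur on `U` have multiplicity
one, `m ≥ 1`, and

* either `U` is symplectic, `d₀ ^ 2` is the class of the values of the cyclotomic character, and
  `m ^ 2 < 2 D` for the multiplicity `D` of `d₀` on `U`,
* or `d d' ≠ d₀ ^ 2` for all classes `d` and `d'` different from `d₀` on `U`, and `m (m - 1) < D`. -/
def HasLargePart (R : Representation K Γ X) (χ : Γ →* K) (U : Submodule K X) : Prop :=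
  ∃ (r n : ℕ) (γ : Fin r → Γ) (H : Subgroup (Fin r → Kˣ)) (b : Basis (Fin n) K X)
    (deg : Fin n → Cl H) (e : Fin r → Kˣ) (d₀ : Cl H) (m : ℕ),
    IsClassGrading R γ H b deg ∧ (∀ k, (e k : K) = χ (γ k)) ∧
    (others b deg U d₀).ncard = m ∧ m ≠ 0 ∧ (∀ d ∈ others b deg U d₀, mult b deg U d = 1) ∧
    ((IsSymplectic R χ U ∧ d₀ * d₀ = cls H e ∧ m * m < 2 * mult b deg U d₀) ∨
      ((∀ d ∈ others b deg U d₀, ∀ d' ∈ others b deg U d₀, d * d' ≠ d₀ * d₀) ∧
        m * (m - 1) < mult b deg U d₀))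

include hnd hωR hss in
/-- Square-zero elements of rank one. -/
theorem one_of_largePart [IsAlgClosed K] (hP : Pool.Agent.Y126.Notions.WeakHodgeGenerate R χ)
    {U : Submodule K X} (hU : SI R U) (hU2 : 2 ≤ finrank K U)
    (h : HasLargePart R χ U) : ∃ e ∈ lieT R χ, e * e = 0 ∧ finrank K (U.map e) = 1 := by
  classical
  have hP' : Pool.Agent.W528.Odd.WeakHodgeGenerate R χ := fun P hP' => hP P fun x hx => hP' x hx.2 hx.1
  obtain ⟨r, n, γ, H, b, deg, e, d₀, m, hg, he, hm, hm0, hone, hcase⟩ := h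
  have hst : ∀ {y : Module.End K X}, y ∈ lieT R χ → ∀ v ∈ U, y v ∈ U := fun hy =>
    lieT_stable ω hnd hωR hss hU.2.1 hy
  obtain ⟨Is, hIs⟩ : ∃ Is, Is = others b deg U d₀ := ⟨_, rfl⟩
  have hfin : Is.Finite := by rw [hIs]; exact others_finite U d₀
  have : Fintype Is := hfin.fintype
  have hcard : Fintype.card Is = m := by
    rw [← hm, ← hIs, ← Nat.card_coe_set_eq, Nat.card_eq_fintype_card]
  have hne : Nonempty Is := by
    rw [← Fintype.card_pos_iff, hcard]
    omega
  rw [← hIs] at hone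
  have hIsm : ∀ d, d ∈ Is ↔ d ≠ d₀ ∧ Occurs b deg U d := fun d => by rw [hIs]; exact Iff.rfl
  obtain ⟨cl, hcld⟩ : ∃ cl : Is → Cl H, cl = fun i => i.1 := ⟨_, rfl⟩
  have hclm : ∀ i, cl i ∈ Is := fun i => by rw [hcld]; exact i.2
  have hclinj : Function.Injective cl := by rw [hcld]; exact Subtype.val_injective
  have hcl0 : ∀ i, cl i ≠ d₀ := fun i => ((hIsm _).1 (hclm i)).1
  have hcl : ∀ d, d ≠ d₀ → Occurs b deg U d → ∃ i, cl i = d := fun d h1 h2 =>
    ⟨⟨d, (hIsm d).2 ⟨h1, h2⟩⟩, by rw [hcld]⟩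
  have hex : ∀ i, ∃ u ∈ part b deg (cl i) ⊓ U, u ≠ 0 ∧
      ∀ v ∈ part b deg (cl i) ⊓ U, ∃ t : K, v = t • u := by
    intro i
    have h1 := hone _ (hclm i)
    unfold mult at h1
    obtain ⟨u, hu0, hall⟩ := finrank_eq_one_iff'.1 h1
    refine ⟨u, u.2, fun h => hu0 (Subtype.ext h), fun v hv => ?_⟩
    obtain ⟨t, ht⟩ := hall ⟨v, hv⟩
    exact ⟨t, (congrArg Subtype.val ht).symm⟩
  choose u hu hu0 hline using hex
  -- parts of degree different from `d₀` and the `cl i` are zero
  have hzero : ∀ d, d ≠ d₀ → (∀ i, cl i ≠ d) → ∀ v ∈ part b deg d ⊓ U, v = 0 := by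
    intro d hd hd' v hv
    by_contra h0
    obtain ⟨i, hi⟩ := hcl d hd (occurs_of hv.1 hv.2 h0)
    exact hd' i hi
  obtain ⟨idx, hidx⟩ : ∃ idx : Is → ℕ, Function.Injective idx :=
    ⟨fun i => (Fintype.equivFin Is i : ℕ), fun i j h =>
      (Fintype.equivFin Is).injective (Fin.ext h)⟩
  -- the element
  have key : ∃ i, ∃ x ∈ lieT R χ, Homog b deg (d₀ * (cl i)⁻¹) x ∧ x (u i) ≠ 0 ∧
      ∀ j, j ≠ i → x (u j) = 0 := by
    rcases hcase with ⟨hsym, hee, hD⟩ | ⟨-, hD⟩
    · obtain ⟨Δ, hΔ, B, hB0, hBalt, hB⟩ := id hsym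
      obtain ⟨T, hT⟩ : ∃ T : Finset (Is × Is), T = Finset.univ.filter (fun p : Is × Is =>
        p.1 ≠ p.2 ∧ ∃ k, cl k = d₀ * cl p.1 * (cl p.2)⁻¹ ∧ idx p.2 ≤ idx k) := ⟨_, rfl⟩
      have hTm : ∀ p : Is × Is, p ∈ T ↔ p.1 ≠ p.2 ∧ ∃ k, cl k = d₀ * cl p.1 * (cl p.2)⁻¹ ∧
          idx p.2 ≤ idx k := fun p => by
        rw [hT, Finset.mem_filter]
        exact ⟨fun h => h.2, fun h => ⟨Finset.mem_univ _, h⟩⟩
      have hTc := count_pairs cl hclinj d₀ hcl0 idx hidx T fun p hp => (hTm p).1 hp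
      refine exists_elt ω hnd hωR hss hP' hU hg cl hcl0 hcl u hu hu0 hline T
        (fun p hp h => ((hTm p).1 hp).1 (hclinj h)) ?_ ?_
      · intro i x hx hhom hz j hj
        have hsk := lieT_skew ω hnd hωR hss hU.2.1 hΔ B hB hx
        obtain ⟨d₁, hd₁⟩ : ∃ d₁, d₁ = d₀ * cl i * (cl j)⁻¹ := ⟨_, rfl⟩
        have hpr : d₀ * (cl i)⁻¹ * cl j * d₁ = cls H e := by
          rw [hd₁, ← hee]
          calc d₀ * (cl i)⁻¹ * cl j * (d₀ * cl i * (cl j)⁻¹) =
              d₀ * d₀ * ((cl i)⁻¹ * cl i) * (cl j * (cl j)⁻¹) := by ac_rfl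
            _ = d₀ * d₀ := by rw [inv_mul_cancel, mul_inv_cancel, mul_one, mul_one]
        have hxj : x (u j) ∈ part b deg (d₀ * (cl i)⁻¹ * cl j) ⊓ U :=
          ⟨hhom _ _ (hu j).1, hst hx _ (hu j).2⟩
        have hd₁0 : d₁ ≠ d₀ := by
          intro h
          rw [hd₁, mul_assoc, mul_eq_left, mul_inv_eq_one] at h
          exact hj (hclinj h).symm
        by_cases hk : ∃ k, cl k = d₁
        · obtain ⟨k, hk⟩ := hk
          rcases le_total (idx j) (idx k) with hjk | hkj
          · exact hz j ((hTm _).2 ⟨Ne.symm hj, k, by rw [hk, hd₁], hjk⟩)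
          · have hki : i ≠ k := by
              intro h
              rw [← h, hd₁] at hk
              apply hcl0 j
              have h5 : cl i * cl j = cl i * d₀ := by
                conv_lhs => rw [hk]
                rw [inv_mul_cancel_right, mul_comm]
              exact mul_left_cancel h5
            have hxk : x (u k) = 0 := by
              refine hz k ((hTm _).2 ⟨hki, j, ?_, hkj⟩)
              simp only
              rw [hk, hd₁, mul_inv, inv_inv, mul_inv_cancel_left]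
            refine du_left hU hU.2.1 hΔ hB0 hB _ hxj.2 fun z hz' => ?_
            rw [pair_part ω hnd hωR hss hg he hU hΔ B hB hpr hxj hz']
            have h6 : pr b deg d₁ z ∈ part b deg (cl k) ⊓ U := by
              rw [hk]
              exact ⟨pr_mem b deg d₁ z, pr_stable hg hss hU.2.1 d₁ z hz'⟩
            obtain ⟨t, ht⟩ := hline k _ h6
            rw [ht, map_smul]
            have h7 := hsk (u j) (hu j).2 (u k) (hu k).2
            rw [hxk, map_zero, add_zero] at h7
            rw [h7, smul_zero]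
        · push Not at hk
          refine du_left hU hU.2.1 hΔ hB0 hB _ hxj.2 fun z hz' => ?_
          rw [pair_part ω hnd hωR hss hg he hU hΔ B hB hpr hxj hz',
            hzero d₁ hd₁0 hk _ ⟨pr_mem b deg d₁ z, pr_stable hg hss hU.2.1 d₁ z hz'⟩, map_zero]
      · unfold mult at hD
        rw [hcard] at hTc
        omega
    · refine exists_elt ω hnd hωR hss hP' hU hg cl hcl0 hcl u hu hu0 hline Finset.univ.offDiag
        (fun p hp h => (Finset.mem_offDiag.1 hp).2.2 (hclinj h)) ?_ ?_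
      · intro i x _ _ hz j hj
        exact hz j (Finset.mem_offDiag.2 ⟨Finset.mem_univ _, Finset.mem_univ _, Ne.symm hj⟩)
      · unfold mult at hD
        rw [Finset.offDiag_card, Finset.card_univ, hcard]
        rw [Nat.mul_sub, mul_one] at hD
        exact hD
  obtain ⟨i, x, hxm, hhom, hxi, hxj⟩ := key
  obtain ⟨c, hc⟩ : ∃ c, c = cl i := ⟨_, rfl⟩
  have hcd : c ≠ d₀ := by rw [hc]; exact hcl0 i
  have hkill : ∀ z ∈ U, pr b deg d₀ z = 0 → pr b deg c z = 0 → x z = 0 := by
    intro z hz h1 h2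
    rw [← sum_pr b deg z, map_sum]
    refine Finset.sum_eq_zero fun d _ => ?_
    by_cases hd : d = d₀
    · rw [hd, h1, map_zero]
    by_cases hd' : d = c
    · rw [hd', h2, map_zero]
    have h3 : pr b deg d z ∈ part b deg d ⊓ U := ⟨pr_mem b deg d z, pr_stable hg hss hU.2.1 d z hz⟩
    by_cases h4 : ∃ j, cl j = d
    · obtain ⟨j, hj⟩ := h4
      rw [← hj] at h3
      obtain ⟨t, ht⟩ := hline j _ h3
      rw [← hj, ht, map_smul, hxj j (fun h => hd' (by rw [← hj, h, hc])), smul_zero]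
    · push Not at h4
      rw [hzero d hd h4 _ h3, map_zero]
  obtain ⟨w, hw⟩ : ∃ w, w = x (u i) := ⟨_, rfl⟩
  rw [← hw] at hxi
  have hwp : w ∈ part b deg d₀ ⊓ U := by
    refine ⟨?_, by rw [hw]; exact hst hxm _ (hu i).2⟩
    have h1 := hhom _ _ (hu i).1
    rwa [inv_mul_cancel_right, ← hw] at h1
  have hx : ∀ v ∈ U, ∃ t : K, x v = t • w + x (pr b deg d₀ v) := by
    intro v hv
    have h1 : pr b deg c v ∈ part b deg (cl i) ⊓ U := by
      rw [← hc]
      exact ⟨pr_mem b deg c v, pr_stable hg hss hU.2.1 c v hv⟩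
    obtain ⟨t, ht⟩ := hline i _ h1
    refine ⟨t, ?_⟩
    have h2 : x (v - pr b deg d₀ v - pr b deg c v) = 0 := by
      have hp1 : pr b deg d₀ (pr b deg c v) = 0 :=
        pr_of_mem_ne b deg hcd (pr_mem b deg c v)
      have hp2 : pr b deg c (pr b deg d₀ v) = 0 :=
        pr_of_mem_ne b deg (Ne.symm hcd) (pr_mem b deg d₀ v)
      refine hkill _ (U.sub_mem (U.sub_mem hv (pr_stable hg hss hU.2.1 d₀ v hv))
        (pr_stable hg hss hU.2.1 c v hv)) ?_ ?_
      · rw [map_sub, map_sub, pr_of_mem b deg (pr_mem b deg d₀ v), hp1, sub_self, sub_zero]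
      · rw [map_sub, map_sub, pr_of_mem b deg (pr_mem b deg c v), hp2, sub_zero, sub_self]
    rw [map_sub, map_sub, sub_sub, sub_eq_zero] at h2
    rw [h2, ht, map_smul, ← hw, add_comm]
  -- the image of the part of degree `d₀`
  obtain ⟨c', hc'⟩ : ∃ c', c' = d₀ * c⁻¹ * d₀ := ⟨_, rfl⟩
  have hc'd : c' ≠ d₀ := by
    intro h
    rw [hc', mul_eq_right, mul_inv_eq_one] at h
    exact hcd h.symm
  have hcc' : c * c' = d₀ * d₀ := by
    rw [hc']
    calc c * (d₀ * c⁻¹ * d₀) = d₀ * d₀ * (c * c⁻¹) := by ac_rfl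
      _ = d₀ * d₀ := by rw [mul_inv_cancel, mul_one]
  have hx0 : ∀ v ∈ part b deg d₀ ⊓ U, x v ∈ part b deg c' ⊓ U := by
    intro v hv
    refine ⟨?_, hst hxm _ hv.2⟩
    rw [hc', hc]
    exact hhom _ _ hv.1
  rcases hcase with ⟨hsym, hee, -⟩ | ⟨hno, -⟩
  · obtain ⟨Δ, hΔ, B, hB0, hBalt, hB⟩ := id hsym
    have hsk := lieT_skew ω hnd hωR hss hU.2.1 hΔ B hB hxm
    have hce : c * c' = cls H e := hcc'.trans hee
    have hc'c : c' ≠ c := by
      intro h
      rw [h] at hce
      refine ne_one_of_self ω hnd hωR hss hg he hU hsym hce ?_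
      have := hone _ (hclm i)
      rw [← hc] at this
      exact this
    -- a vector that pairs with `w`
    obtain ⟨v₀, hv₀, hBv₀⟩ : ∃ v₀ ∈ part b deg d₀ ⊓ U, B w v₀ ≠ 0 := by
      by_contra hcon
      push Not at hcon
      apply hxi
      refine du_left hU hU.2.1 hΔ hB0 hB _ hwp.2 fun v hv => ?_
      rw [pair_part ω hnd hωR hss hg he hU hΔ B hB hee hwp hv]
      exact hcon _ ⟨pr_mem b deg d₀ v, pr_stable hg hss hU.2.1 d₀ v hv⟩
    have hBu : ∀ v ∈ U, B (u i) (x v) = -B w v := by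
      intro v hv
      have h1 := hsk (u i) (hu i).2 v hv
      rw [← hw] at h1
      exact eq_neg_of_add_eq_zero_right h1
    have hxv₀ : x v₀ ≠ 0 := by
      intro h
      have h1 := hBu v₀ hv₀.2
      rw [h, map_zero] at h1
      exact hBv₀ (neg_eq_zero.1 h1.symm)
    have hxv₀m := hx0 v₀ hv₀
    obtain ⟨k, hk⟩ := hcl c' hc'd (occurs_of hxv₀m.1 hxv₀m.2 hxv₀)
    have hki : k ≠ i := fun h => hc'c (by rw [← hk, h, hc])
    have hx0' : ∀ v ∈ part b deg d₀ ⊓ U, ∃ t : K, x v = t • u k := by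
      intro v hv
      have h1 := hx0 v hv
      rw [← hk] at h1
      exact hline k _ h1
    obtain ⟨t₀, ht₀⟩ := hx0' v₀ hv₀
    have hBuk : B (u i) (u k) ≠ 0 := by
      intro h
      have h1 := hBu v₀ hv₀.2
      rw [ht₀, map_smul, h, smul_zero] at h1
      exact hBv₀ (neg_eq_zero.1 h1.symm)
    have hxw : x w = 0 := by
      obtain ⟨t, ht⟩ := hx0' w hwp
      have h1 := hBu w hwp.2
      rw [hBalt w hwp.2, neg_zero, ht, map_smul, smul_eq_mul] at h1
      rw [ht, (mul_eq_zero.1 h1).resolve_right hBuk, zero_smul]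
    have hxk : x (u k) = 0 := hxj k hki
    have ht₀0 : t₀ ≠ 0 := by
      rintro rfl
      rw [zero_smul] at ht₀
      exact hxv₀ ht₀
    have hpr0 : ∀ v ∈ U, pr b deg d₀ v ∈ part b deg d₀ ⊓ U := fun v hv =>
      ⟨pr_mem b deg d₀ v, pr_stable hg hss hU.2.1 d₀ v hv⟩
    have hxx : ∀ v ∈ U, x (x v) = 0 := by
      intro v hv
      obtain ⟨t, ht⟩ := hx v hv
      obtain ⟨s, hs⟩ := hx0' _ (hpr0 v hv)
      rw [ht, hs, map_add, map_smul, map_smul, hxw, hxk, smul_zero, smul_zero, add_zero]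
    have hspan : U.map x = Submodule.span K {w, u k} := by
      apply le_antisymm
      · rintro _ ⟨v, hv, rfl⟩
        obtain ⟨t, ht⟩ := hx v hv
        obtain ⟨s, hs⟩ := hx0' _ (hpr0 v hv)
        rw [ht, hs]
        exact Submodule.add_mem _ (Submodule.smul_mem _ _ (Submodule.subset_span
          (Set.mem_insert _ _))) (Submodule.smul_mem _ _ (Submodule.subset_span
          (Set.mem_insert_of_mem _ rfl)))
      · rw [Submodule.span_le]
        rintro z (rfl | rfl)
        · rw [hw]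
          exact Submodule.mem_map_of_mem (hu i).2
        · have h1 : u k = t₀⁻¹ • x v₀ := by rw [ht₀, smul_smul, inv_mul_cancel₀ ht₀0, one_smul]
          rw [h1]
          exact (U.map x).smul_mem _ (Submodule.mem_map_of_mem hv₀.2)
    have hli : LinearIndependent K ![w, u k] := by
      rw [LinearIndependent.pair_iff]
      intro s t hst'
      have h1 := congrArg (pr b deg d₀) hst'
      rw [map_add, map_smul, map_smul, pr_of_mem b deg hwp.1,
        pr_of_mem_ne b deg (hcl0 k) (hu k).1, smul_zero, add_zero, map_zero] at h1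
      have hs : s = 0 := (smul_eq_zero.1 h1).resolve_right hxi
      rw [hs, zero_smul, zero_add] at hst'
      exact ⟨hs, (smul_eq_zero.1 hst').resolve_right (hu0 k)⟩
    have hrk : finrank K (U.map x) = 2 := by
      rw [hspan]
      have h1 : Set.range ![w, u k] = {w, u k} := Matrix.range_cons_cons_empty _ _ _
      rw [← h1]
      exact (finrank_span_eq_card hli).trans (Fintype.card_fin 2)
    exact one_of_elt ω hnd hωR hss hP' hU hU2 hxm hxx (Or.inr ⟨hsym, hrk⟩)
  · have hx0' : ∀ v ∈ part b deg d₀ ⊓ U, x v = 0 := by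
      intro v hv
      have h1 := hx0 v hv
      by_contra h0
      have h2 : c' ∈ others b deg U d₀ := ⟨hc'd, occurs_of h1.1 h1.2 h0⟩
      have h3 : c ∈ others b deg U d₀ := by
        rw [← hIs, hc]
        exact hclm i
      exact hno c h3 c' h2 hcc'
    have hx' : ∀ v ∈ U, ∃ t : K, x v = t • w := by
      intro v hv
      obtain ⟨t, ht⟩ := hx v hv
      refine ⟨t, ?_⟩
      rw [ht, hx0' _ ⟨pr_mem b deg d₀ v, pr_stable hg hss hU.2.1 d₀ v hv⟩, add_zero]
    refine one_of_elt ω hnd hωR hss hP' hU hU2 hxm (fun v hv => ?_) (Or.inl ?_)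
    · obtain ⟨t, ht⟩ := hx' v hv
      rw [ht, map_smul, hx0' w hwp, smul_zero]
    · have hspan : U.map x = Submodule.span K {w} := by
        apply le_antisymm
        · rintro _ ⟨v, hv, rfl⟩
          obtain ⟨t, ht⟩ := hx' v hv
          rw [ht]
          exact Submodule.smul_mem _ _ (Submodule.subset_span rfl)
        · rw [Submodule.span_le]
          rintro z rfl
          rw [hw]
          exact Submodule.mem_map_of_mem (hu i).2
      rw [hspan]
      exact finrank_span_singleton hxi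

end main

end

end Pool.Agent.T9h64.MT
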